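import Pool.Agent.Y413.FW.GAIN

/-!
# Project FW: the examples
-/

set_option autoImplicit false

open Finset Filter Topology TH465.Fr

namespace Y413.FW

theorem not_R {w : List Bool} (h1 : 2 ≤ w.count true) (h2 : 2 ≤ w.count false) : w ∉ R := by
  rintro ⟨k, hk, h | h | h | h⟩
  · rw [h] at h2
    simp [List.count_append, List.count_replicate] at h2
  · rw [h] at h1
    simp [List.count_replicate] at h1
  · rw [h] at h1
    simp [List.count_append, List.count_replicate] at h1
  · rw [h] at h2
    simp [List.count_replicate] at h2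

/-- the word `1^t 0^(k-t)` -/
def vw (k t : ℕ) : List Bool := List.replicate t true ++ List.replicate (k - t) false

theorem vw_length {k t : ℕ} (h : t ≤ k) : (vw k t).length = k := by
  simp [vw]
  omega

theorem vw_true (k t : ℕ) : (vw k t).count true = t := by
  simp [vw, List.count_append, List.count_replicate]

theorem vw_false (k t : ℕ) : (vw k t).count false = k - t := by
  simp [vw, List.count_append, List.count_replicate]

theorem vw_lt1 {k t i : ℕ} (h : i < t) : lt (vw k t) i = true := by
  unfold lt vw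
  rw [List.getD_eq_getElem _ _ (by simp; omega), List.getElem_append_left (by simpa using h),
    List.getElem_replicate]

theorem vw_lt2 {k t i : ℕ} (h : t ≤ i) : lt (vw k t) i = false := by
  unfold lt vw
  by_cases hi : i < k
  · rw [List.getD_eq_getElem _ _ (by simp; omega), List.getElem_append_right (by simpa using h),
      List.getElem_replicate]
  · rw [List.getD_eq_default]
    simp
    omega

theorem vw_per {k t : ℕ} (h0 : 0 < t) (h : t < k) : per (vw k t) = {0} := by
  ext p
  rw [per_iff, vw_length h.le, mem_singleton]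
  constructor
  · rintro ⟨hp, h1⟩
    by_contra hne
    by_cases hc : p ≤ k - t
    · have := h1 (t - 1) (by omega)
      rw [vw_lt2 (by omega), vw_lt1 (by omega)] at this
      exact Bool.noConfusion this
    · have := h1 (k - 1 - p) (by omega)
      rw [vw_lt2 (by omega), vw_lt1 (by omega)] at this
      exact Bool.noConfusion this
  · rintro rfl
    exact ⟨by omega, fun i _ => rfl⟩

/-- the word `011011...` -/
def ww3 (k : ℕ) : List Bool := (List.range k).map fun i => decide (i % 3 ≠ 0)

theorem ww3_length (k : ℕ) : (ww3 k).length = k := by simp [ww3]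

theorem ww3_lt {k i : ℕ} (h : i < k) : lt (ww3 k) i = decide (i % 3 ≠ 0) := by
  unfold lt ww3
  rw [List.getD_eq_getElem _ _ (by simpa using h)]
  simp

theorem ww3_false (k : ℕ) : (ww3 k).count false = (k + 2) / 3 := by
  rw [count_eq, ww3_length]
  have h1 : ∑ i ∈ range k, (if lt (ww3 k) i = false then 1 else 0) =
      ∑ i ∈ range k, (if i % 3 = 0 then 1 else 0) := by
    refine Finset.sum_congr rfl fun i hi => ?_
    rw [ww3_lt (mem_range.mp hi)]
    simp
  rw [h1]
  have h2 : ∀ n : ℕ, ∑ i ∈ range n, (if i % 3 = 0 then 1 else 0) = (n + 2) / 3 := by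
    intro n
    induction n with
    | zero => rfl
    | succ n ih =>
      rw [Finset.sum_range_succ, ih]
      split_ifs with h
      · omega
      · omega
  exact h2 k

theorem ww3_per {k j : ℕ} (h : 3 * j < k) : 3 * j ∈ per (ww3 k) := by
  rw [per_iff, ww3_length]
  refine ⟨h, fun i hi => ?_⟩
  rw [ww3_lt hi, ww3_lt (by omega)]
  congr 2
  omega

theorem ww3_CC (k : ℕ) : 8 / 7 * (1 - (1 / 8 : ℝ) ^ ((k + 2) / 3)) ≤ CC (ww3 k) := by
  unfold CC
  have h1 : (range ((k + 2) / 3)).image (fun j => 3 * j) ⊆ per (ww3 k) := by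
    intro p hp
    rw [mem_image] at hp
    obtain ⟨j, hj, rfl⟩ := hp
    rw [mem_range] at hj
    exact ww3_per (by omega)
  have h2 := Finset.sum_le_sum_of_subset_of_nonneg (f := fun p => (1 / 2 : ℝ) ^ p) h1
    (fun p _ _ => by positivity)
  rw [Finset.sum_image (by
    intro a _ b _ hab
    have hab' : 3 * a = 3 * b := hab
    omega)] at h2
  refine le_trans (le_of_eq ?_) h2
  have h3 : ∀ j : ℕ, (1 / 2 : ℝ) ^ (3 * j) = (1 / 8) ^ j := by
    intro j
    rw [pow_mul]
    norm_num
  simp only [h3]
  rw [geom_sum_eq (by norm_num)]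
  ring

theorem t_EX : S_EX := by
  intro k hk
  set t := 31 * k / 48 + 6 with ht
  have htk : t < k := by omega
  have hk' : (480 : ℝ) ≤ k := by exact_mod_cast hk
  have ht1 : (31 : ℝ) * k / 48 + 5 < t := by
    have : 31 * k + 48 * 5 < 48 * t := by omega
    have : (31 : ℝ) * k + 48 * 5 < 48 * t := by exact_mod_cast this
    linarith
  have ht2 : (t : ℝ) ≤ 31 * k / 48 + 6 := by
    have : 48 * t ≤ 31 * k + 48 * 6 := by omega
    have : (48 : ℝ) * t ≤ 31 * k + 48 * 6 := by exact_mod_cast this
    linarith
  have hsum := count_add (ww3 k)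
  rw [ww3_length, ww3_false] at hsum
  have hc1 : (2 * (k : ℝ) - 2) / 3 ≤ ((ww3 k).count true : ℝ) := by
    have : 2 * k ≤ 3 * (ww3 k).count true + 2 := by omega
    have : (2 : ℝ) * k ≤ 3 * ((ww3 k).count true : ℝ) + 2 := by exact_mod_cast this
    linarith
  have hc2 : ((ww3 k).count true : ℝ) ≤ 2 * k / 3 := by
    have : 3 * (ww3 k).count true ≤ 2 * k := by omega
    have : (3 : ℝ) * ((ww3 k).count true : ℝ) ≤ 2 * k := by exact_mod_cast this
    linarith
  have hlt : t < (ww3 k).count true := by
    have : (t : ℝ) < ((ww3 k).count true : ℝ) := by linarith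
    exact_mod_cast this
  have hNCv : NC (vw k t) := by
    constructor
    · rw [← List.count_pos_iff, vw_true]
      omega
    · rw [← List.count_pos_iff, vw_false]
      omega
  have hNCw : NC (ww3 k) := by
    constructor
    · rw [← List.count_pos_iff]
      omega
    · rw [← List.count_pos_iff, ww3_false]
      omega
  refine ⟨vw k t, ww3 k, hNCv, hNCw, ?_, ?_, vw_length htk.le, ww3_length k, ?_, ?_, ?_⟩
  · exact not_R (by rw [vw_true]; omega) (by rw [vw_false]; omega)
  · exact not_R (by omega) (by rw [ww3_false]; omega)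
  · rw [vw_true]
    exact hlt
  · rw [vw_true]
    linarith
  · have hCv : CC (vw k t) = 1 := by
      unfold CC
      rw [vw_per (by omega) htk]
      simp
    have hexv : ex (vw k t) = t - (k : ℝ) / 2 := by
      unfold ex
      rw [vw_true, vw_length htk.le]
    have hexw : ex (ww3 k) ≤ (k : ℝ) / 6 := by
      unfold ex
      rw [ww3_length]
      linarith
    set η : ℝ := (1 / 8 : ℝ) ^ ((k + 2) / 3) with hη
    have hη0 : 0 < η := by positivity
    have hηk : η * k ≤ 1 := by
      have h1 : (k : ℝ) ≤ 8 ^ ((k + 2) / 3) := by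
        have h2 : k < 2 ^ k := Nat.lt_two_pow_self
        have h3 : 2 ^ k ≤ 2 ^ (3 * ((k + 2) / 3)) :=
          Nat.pow_le_pow_right (by norm_num) (by omega)
        have h4 : 2 ^ (3 * ((k + 2) / 3)) = 8 ^ ((k + 2) / 3) := by
          rw [pow_mul]
          norm_num
        have h5 : k ≤ 8 ^ ((k + 2) / 3) := by omega
        exact_mod_cast h5
      rw [hη, one_div_pow, div_mul_eq_mul_div, one_mul, div_le_one (by positivity)]
      exact h1
    have hη1 : η ≤ 1 / 480 := by nlinarith
    have hCC := ww3_CC k
    rw [← hη] at hCC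
    have hCpos : 0 < CC (ww3 k) := by linarith
    rw [hCv, hexv, div_one, div_lt_iff₀ hCpos]
    have h6 : (7 * (k : ℝ) / 48 + 3) * (8 / 7 * (1 - η)) ≤
        ((t : ℝ) - (k : ℝ) / 2 - 2) * CC (ww3 k) := by
      refine mul_le_mul (by linarith) hCC ?_ (by linarith)
      linarith
    have h7 : (7 * (k : ℝ) / 48 + 3) * (8 / 7 * (1 - η)) =
        k / 6 + 24 / 7 - (η * k) / 6 - 24 / 7 * η := by ring
    linarith

end Y413.FW
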