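import Pool.Agent.Y413.FW.Stm

/-!
# Project FW: the root, and the comparison
-/

set_option autoImplicit false

open Finset Filter Topology TH465.Fr

namespace Y413.FW

theorem two_pow_big : ∀ m : ℕ, 20 ≤ m → (m : ℝ) * 50000 ≤ 2 ^ m := by
  intro m hm
  induction m, hm using Nat.le_induction with
  | base => norm_num
  | succ m hm ih =>
    rw [pow_succ]
    have : (20 : ℝ) ≤ m := by exact_mod_cast hm
    push_cast
    nlinarith

theorem t_ROOT : S_ROOT := by
  intro k S hk h0 hS _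
  have hkk := two_pow_big k hk
  have hk20 : (20 : ℝ) ≤ k := by exact_mod_cast hk
  have h2k : (0 : ℝ) < 2 ^ k := by positivity
  have hsm : (1 : ℝ) / 2 ^ k * k ≤ 1 / 50000 := by
    rw [div_mul_eq_mul_div, one_mul, div_le_div_iff₀ h2k (by norm_num)]
    linarith
  have hsm1 : (1 : ℝ) / 2 ^ k ≤ 1 / 1000000 := by
    have : (1 : ℝ) / 2 ^ k * 20 ≤ 1 / 2 ^ k * k :=
      mul_le_mul_of_nonneg_left hk20 (by positivity)
    linarith
  have hsm0 : (0 : ℝ) < 1 / 2 ^ k := by positivity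
  have h8 : (8 : ℝ) / 2 ^ k = 8 * (1 / 2 ^ k) := by ring
  set μ0 : ℝ := 2 - 8 / 2 ^ k with hμ0
  have hμ0pos : 1 ≤ μ0 := by rw [hμ0, h8]; linarith
  have hcont : ContinuousOn (fun μ : ℝ => (2 / μ - 1) * ∑ p ∈ S, μ ^ (k - p)) (Set.Icc μ0 2) := by
    refine ContinuousOn.mul (ContinuousOn.sub (ContinuousOn.div continuousOn_const
      continuousOn_id ?_) continuousOn_const) (by fun_prop)
    intro x hx
    have : 0 < x := by linarith [hx.1]
    exact this.ne'
  have hab : μ0 ≤ 2 := by rw [hμ0, h8]; linarith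
  have hivt := intermediate_value_Icc' hab hcont
  have hb := one_add_mul_le_pow (a := -(4 * (1 / 2 ^ k) : ℝ)) (by linarith) (k - 1)
  have hlow : 1 - 4 / 50000 ≤ (μ0 / 2) ^ (k - 1) := by
    have e1 : μ0 / 2 = 1 + -(4 * (1 / 2 ^ k) : ℝ) := by rw [hμ0, h8]; ring
    rw [e1]
    have e2 : ((k - 1 : ℕ) : ℝ) * (1 / 2 ^ k) ≤ k * (1 / 2 ^ k) := by
      refine mul_le_mul_of_nonneg_right ?_ hsm0.le
      exact_mod_cast Nat.sub_le k 1
    have e3 : ((k - 1 : ℕ) : ℝ) * -(4 * (1 / 2 ^ k)) = -(4 * (((k - 1 : ℕ) : ℝ) * (1 / 2 ^ k))) := by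
      ring
    rw [e3] at hb
    linarith
  have h1mem : (1 : ℝ) ∈ Set.Icc ((fun μ : ℝ => (2 / μ - 1) * ∑ p ∈ S, μ ^ (k - p)) 2)
      ((fun μ : ℝ => (2 / μ - 1) * ∑ p ∈ S, μ ^ (k - p)) μ0) := by
    constructor
    · norm_num
    · simp only
      have e4 : μ0 ^ k ≤ ∑ p ∈ S, μ0 ^ (k - p) := by
        have := Finset.single_le_sum (f := fun p => μ0 ^ (k - p))
          (fun p _ => by positivity) h0
        simpa using this
      have e5 : 0 ≤ 2 / μ0 - 1 := by
        rw [sub_nonneg, le_div_iff₀ (by linarith)]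
        linarith
      have e6 : (2 / μ0 - 1) * μ0 ^ k = 4 * (μ0 / 2) ^ (k - 1) := by
        have e7 : μ0 ^ k = μ0 ^ (k - 1) * μ0 := by
          rw [← pow_succ]
          congr 1
          omega
        have e8 : (2 : ℝ) ^ k = 2 ^ (k - 1) * 2 := by
          rw [← pow_succ]
          congr 1
          omega
        have e9 : (2 / μ0 - 1) * μ0 = 8 / 2 ^ k := by
          have : μ0 ≠ 0 := by linarith
          rw [sub_mul, div_mul_cancel₀ _ this, hμ0]
          ring
        rw [e7, div_pow]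
        have e10 : (2 / μ0 - 1) * (μ0 ^ (k - 1) * μ0) = (2 / μ0 - 1) * μ0 * μ0 ^ (k - 1) := by ring
        rw [e10, e9, e8]
        have : (2 : ℝ) ^ (k - 1) ≠ 0 := by positivity
        field_simp
        ring
      have e11 := mul_le_mul_of_nonneg_left e4 e5
      linarith
  obtain ⟨μ, hμ, hμr⟩ := hivt h1mem
  simp only at hμr
  refine ⟨μ, hμ.1, lt_of_le_of_ne hμ.2 ?_, hμr⟩
  rintro rfl
  norm_num at hμr

theorem t_CMP : S_CMP := by
  intro k a b Cv Cw ρv ρw hk hv1 hv2 hw1 hw2 hga hgb hv hw hab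
  have hk20 : (20 : ℝ) ≤ k := by exact_mod_cast hk
  have h2k : (0 : ℝ) < 2 ^ k := by positivity
  have hCv : 0 < Cv := by linarith
  have hCw : 0 < Cw := by linarith
  rw [abs_le] at hv hw
  -- inverses
  set iv := 1 / Cv with hiv
  set iw := 1 / Cw with hiw
  have hiv1 : iv ≤ 1 := by rw [hiv, div_le_one hCv]; exact hv1
  have hiw1 : iw ≤ 1 := by rw [hiw, div_le_one hCw]; exact hw1
  have hiv2 : 3 / 4 ≤ iv := by rw [hiv, le_div_iff₀ hCv]; linarith
  have hiw2 : 3 / 4 ≤ iw := by rw [hiw, le_div_iff₀ hCw]; linarith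
  have key : 4 < b * iw - a * iv := by
    by_cases ha : 0 ≤ a
    · have hb : 0 ≤ b := by linarith
      rw [abs_of_nonneg hb] at hgb
      nlinarith
    · push Not at ha
      by_cases hb : b ≤ 0
      · rw [abs_of_neg ha] at hga
        nlinarith
      · push Not at hb
        nlinarith
  have hx : ρw - 1 / 2 ≤ (2 - b) * iw / 2 ^ k := by
    rw [le_div_iff₀ h2k]
    have : (ρw - 1 / 2) * 2 ^ k = (2 ^ k * Cw * (ρw - 1 / 2)) * iw := by
      rw [hiw]; field_simp
    rw [this]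
    refine mul_le_mul_of_nonneg_right ?_ (by linarith)
    linarith
  have hy : (-a - 2) * iv / 2 ^ k ≤ ρv - 1 / 2 := by
    rw [div_le_iff₀ h2k]
    have : (ρv - 1 / 2) * 2 ^ k = (2 ^ k * Cv * (ρv - 1 / 2)) * iv := by
      rw [hiv]; field_simp
    rw [this]
    refine mul_le_mul_of_nonneg_right ?_ (by linarith)
    linarith
  have hz : (2 - b) * iw / 2 ^ k < (-a - 2) * iv / 2 ^ k := by
    rw [div_lt_div_iff_of_pos_right h2k]
    nlinarith
  linarith

end Y413.FW
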