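import Pool.Agent.Y413.FW.LIM
import Pool.Agent.Y413.FW.ROOT

/-!
# Project FW: the estimate of the limit
-/

set_option autoImplicit false

open Finset Filter Topology TH465.Fr

namespace Y413.FW

/-- the bound for `Σ p 2^(-p)` -/
theorem sum_p (S : Finset ℕ) (h1 : 1 ∉ S) : ∑ p ∈ S, (1 / 2 : ℝ) ^ p * p ≤ 3 / 2 := by
  have h2 : ∀ N : ℕ, ∑ p ∈ range (N + 2), (1 / 2 : ℝ) ^ p * p = 2 - (N + 3) * (1 / 2) ^ (N + 1) := by
    intro N
    induction N with
    | zero => norm_num [Finset.sum_range_succ]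
    | succ N ih =>
      rw [Finset.sum_range_succ, ih]
      push_cast
      ring
  obtain ⟨N, hN⟩ : ∃ N : ℕ, S ⊆ range (N + 2) := by
    refine ⟨S.sup id, fun p hp => ?_⟩
    rw [mem_range]
    have := Finset.le_sup (f := id) hp
    simp only [id] at this
    omega
  have h3 : S ⊆ (range (N + 2)).erase 1 := by
    intro p hp
    rw [mem_erase]
    refine ⟨?_, hN hp⟩
    rintro rfl
    exact h1 hp
  have h4 := Finset.sum_le_sum_of_subset_of_nonneg (f := fun p : ℕ => (1 / 2 : ℝ) ^ p * p) h3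
    (fun p _ _ => by positivity)
  have h5 := Finset.add_sum_erase (range (N + 2)) (fun p : ℕ => (1 / 2 : ℝ) ^ p * p)
    (a := 1) (mem_range.mpr (by omega))
  rw [h2 N] at h5
  have h6 : (0 : ℝ) ≤ ((N : ℝ) + 3) * (1 / 2) ^ (N + 1) := by positivity
  have h7 : ∑ p ∈ S, (1 / 2 : ℝ) ^ p * p ≤
      ∑ x ∈ (range (N + 2)).erase 1, (1 / 2 : ℝ) ^ x * (x : ℝ) := h4
  have h8 : (1 / 2 : ℝ) ^ 1 * ((1 : ℕ) : ℝ) + ∑ x ∈ (range (N + 2)).erase 1, (1 / 2 : ℝ) ^ x * (x : ℝ) =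
      2 - (N + 3) * (1 / 2) ^ (N + 1) := h5
  norm_num at h8 h7 ⊢
  linarith

theorem pow_bound2 (k : ℕ) (hk : 20 ≤ k) (μ : ℝ) (h1 : 2 - 8 / 2 ^ k ≤ μ) :
    k * ((2 / μ) ^ k - 1) ≤ 1 / 100 ∧ k * (k * (1 / μ) ^ k) ≤ 1 / 1000 := by
  obtain ⟨hμ, hA, _⟩ := pow_bound k hk μ h1
  have hk2 : ∀ m : ℕ, 20 ≤ m → (m : ℝ) ^ 2 * 2000 ≤ 2 ^ m := by
    intro m hm
    induction m, hm using Nat.le_induction with
    | base => norm_num
    | succ m hm ih =>
      rw [pow_succ 2 m]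
      have : (20 : ℝ) ≤ m := by exact_mod_cast hm
      push_cast
      nlinarith
  have hkk := hk2 k hk
  have hkk' := two_pow_big k hk
  have hk20 : (20 : ℝ) ≤ k := by exact_mod_cast hk
  have h2k : (0 : ℝ) < 2 ^ k := by positivity
  have hsm : (1 : ℝ) / 2 ^ k * k ≤ 1 / 50000 := by
    rw [div_mul_eq_mul_div, one_mul, div_le_div_iff₀ h2k (by norm_num)]
    linarith
  have hsq : (1 : ℝ) / 2 ^ k * k * k ≤ 1 / 2000 := by
    rw [div_mul_eq_mul_div, div_mul_eq_mul_div, one_mul, div_le_div_iff₀ h2k (by norm_num)]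
    nlinarith
  have hsm0 : (0 : ℝ) < 1 / 2 ^ k := by positivity
  have hsm1 : (1 : ℝ) / 2 ^ k ≤ 1 / 1000000 := by
    have : (1 : ℝ) / 2 ^ k * 20 ≤ 1 / 2 ^ k * k :=
      mul_le_mul_of_nonneg_left hk20 (by positivity)
    linarith
  have hμ2 : 1 - 4 * (1 / 2 ^ k) ≤ μ / 2 := by
    have : (8 : ℝ) / 2 ^ k = 8 * (1 / 2 ^ k) := by ring
    rw [this] at h1
    linarith
  have hb := one_add_mul_le_pow (a := -(4 * (1 / 2 ^ k) : ℝ)) (by linarith) k
  have hpow : (1 + -(4 * (1 / 2 ^ k) : ℝ)) ^ k ≤ (μ / 2) ^ k := by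
    apply pow_le_pow_left₀
    · linarith
    · linarith
  set s : ℝ := 4 * (1 / 2 ^ k * k) with hs
  have hlow : 1 - s ≤ (μ / 2) ^ k := by
    have : (k : ℝ) * -(4 * (1 / 2 ^ k)) = -s := by rw [hs]; ring
    rw [this] at hb
    linarith
  have hs0 : 0 ≤ s := by positivity
  have hs1 : s ≤ 1 / 2 := by linarith
  have hpos : (0 : ℝ) < (μ / 2) ^ k := by positivity
  have hinv : (2 / μ) ^ k = 1 / (μ / 2) ^ k := by
    rw [← one_div_pow, one_div_div]
  have ht : (2 / μ) ^ k ≤ 1 + 2 * s := by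
    rw [hinv, div_le_iff₀ hpos]
    nlinarith
  constructor
  · have h5 : (k : ℝ) * ((2 / μ) ^ k - 1) ≤ k * (2 * s) :=
      mul_le_mul_of_nonneg_left (by linarith) (by positivity)
    have h6 : (k : ℝ) * (2 * s) = 8 * (1 / 2 ^ k * k * k) := by rw [hs]; ring
    rw [h6] at h5
    linarith
  · have h3 : (1 / μ) ^ k = (2 / μ) ^ k * (1 / 2 ^ k) := by
      rw [← one_div_pow, ← mul_pow]
      congr 1
      field_simp
    rw [h3]
    have h4 : (k : ℝ) * (k * ((2 / μ) ^ k * (1 / 2 ^ k))) = (2 / μ) ^ k * (1 / 2 ^ k * k * k) := by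
      ring
    rw [h4]
    have h5 : 0 ≤ (1 : ℝ) / 2 ^ k * k * k := by positivity
    nlinarith

theorem t_NUM : S_NUM := by
  intro k S h m μ hk h0 hS h1S hh hm0 hmk hμ1 hμ2 hroot
  obtain ⟨hμ, hb1, hb2⟩ := pow_bound k hk μ hμ1
  have hk20 : (20 : ℝ) ≤ k := by exact_mod_cast hk
  have h2k : (0 : ℝ) < 2 ^ k := by positivity
  set e : ℝ := 2 / μ - 1 with he
  have he0 : 0 < e := by
    rw [he, sub_pos, lt_div_iff₀ hμ]
    linarith
  have hmu : 1 / μ = (1 + e) / 2 := by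
    rw [he]
    ring
  set C : ℝ := ∑ p ∈ S, (1 / μ) ^ p with hC
  set CC0 : ℝ := ∑ p ∈ S, (1 / 2 : ℝ) ^ p with hCC0
  set H : ℝ := ∑ p ∈ S, (1 / μ) ^ p * h p with hH
  set T : ℝ := ∑ p ∈ S, (1 / μ) ^ p * p with hT
  -- root
  have hpw : (1 / μ) ^ k = e * C := by
    have h3 : (1 / μ) ^ k * (e * ∑ p ∈ S, μ ^ (k - p)) = (1 / μ) ^ k := by rw [hroot, mul_one]
    rw [← h3, hC, Finset.mul_sum, Finset.mul_sum, Finset.mul_sum]
    refine Finset.sum_congr rfl fun p hp => ?_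
    have h2 := hS p hp
    have h3 : (1 / μ) ^ k = (1 / μ) ^ p * (1 / μ) ^ (k - p) := by
      rw [← pow_add]
      congr 1
      omega
    have h4 : (1 / μ) ^ (k - p) * μ ^ (k - p) = 1 := by
      rw [← mul_pow, one_div_mul_cancel hμ.ne', one_pow]
    rw [h3]
    linear_combination ((1 / μ) ^ p * e) * h4
  have hC1 : 1 ≤ C := by
    have h3 : (1 / μ) ^ 0 ≤ ∑ p ∈ S, (1 / μ) ^ p :=
      Finset.single_le_sum (f := fun p => (1 / μ) ^ p) (fun p _ => by positivity) h0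
    rwa [pow_zero] at h3
  have hCC1 : 1 ≤ CC0 := by
    have h3 : (1 / 2 : ℝ) ^ 0 ≤ ∑ p ∈ S, (1 / 2 : ℝ) ^ p :=
      Finset.single_le_sum (f := fun p => (1 / 2 : ℝ) ^ p) (fun p _ => by positivity) h0
    rwa [pow_zero] at h3
  -- comparison of the weights
  have h21 : 1 ≤ 2 / μ := by
    rw [le_div_iff₀ hμ]
    linarith
  have hwt : ∀ p ∈ S, (1 / 2 : ℝ) ^ p ≤ (1 / μ) ^ p ∧
      (1 / μ) ^ p ≤ (2 / μ) ^ k * (1 / 2 : ℝ) ^ p := by
    intro p hp
    have h4 : (1 / μ) ^ p = (2 / μ) ^ p * (1 / 2 : ℝ) ^ p := by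
      rw [← mul_pow]
      congr 1
      field_simp
    constructor
    · rw [h4]
      exact le_mul_of_one_le_left (by positivity) (one_le_pow₀ h21)
    · rw [h4]
      exact mul_le_mul_of_nonneg_right (pow_le_pow_right₀ h21 (hS p hp).le) (by positivity)
  have hCC : CC0 ≤ C := Finset.sum_le_sum fun p hp => (hwt p hp).1
  have hCC' : C ≤ (2 / μ) ^ k * CC0 := by
    rw [hCC0, Finset.mul_sum]
    exact Finset.sum_le_sum fun p hp => (hwt p hp).2
  have hT0 : 0 ≤ T := Finset.sum_nonneg fun p _ => by positivity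
  have hT1 : T ≤ 1001 / 1000 * (3 / 2) := by
    have h5 : T ≤ (2 / μ) ^ k * ∑ p ∈ S, (1 / 2 : ℝ) ^ p * p := by
      rw [hT, Finset.mul_sum]
      refine Finset.sum_le_sum fun p hp => ?_
      rw [← mul_assoc]
      exact mul_le_mul_of_nonneg_right (hwt p hp).2 (by positivity)
    refine h5.trans ?_
    have h6 := sum_p S h1S
    have h7 : (0 : ℝ) ≤ ∑ p ∈ S, (1 / 2 : ℝ) ^ p * p :=
      Finset.sum_nonneg fun p _ => by positivity
    have h8 : (0 : ℝ) ≤ (2 / μ) ^ k := by positivity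
    nlinarith
  have hH0 : 0 ≤ H := Finset.sum_nonneg fun p hp => mul_nonneg (by positivity) (hh p hp).1
  have hHT : H ≤ T := Finset.sum_le_sum fun p hp =>
    mul_le_mul_of_nonneg_left (hh p hp).2 (by positivity)
  -- numerator and denominator
  have hnum : ∑ p ∈ S, (1 / μ) ^ p * (h p * e + 1 / μ) - m * (1 / μ) ^ k =
      C * ((1 + e) / 2) + e * H - m * (e * C) := by
    have h9 : ∑ p ∈ S, (1 / μ) ^ p * (h p * e + 1 / μ) = C * (1 / μ) + e * H := by
      rw [hC, hH, Finset.sum_mul, Finset.mul_sum, ← Finset.sum_add_distrib]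
      refine Finset.sum_congr rfl fun p _ => ?_
      ring
    rw [hpw, h9, hmu]
  have hden : ∑ p ∈ S, (1 / μ) ^ p * ((k : ℝ) - 1 - p) = ((k : ℝ) - 1) * C - T := by
    rw [hC, hT, Finset.mul_sum, ← Finset.sum_sub_distrib]
    refine Finset.sum_congr rfl fun p _ => ?_
    ring
  rw [hnum, hden]
  -- eC k is small
  have hekC : (k : ℝ) * (e * C) ≤ 1 / 1000 := by rw [← hpw]; exact hb2
  set D : ℝ := C - e * (((k : ℝ) - 1) * C - T) with hD
  have heT : 0 ≤ e * T := mul_nonneg he0.le hT0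
  have heC : 0 ≤ e * C := mul_nonneg he0.le (by linarith)
  have hDl : C * (999 / 1000) ≤ D := by
    have : D = C - k * (e * C) + e * C + e * T := by rw [hD]; ring
    linarith
  have hDpos : 0 < D := by linarith
  have hval : (C * ((1 + e) / 2) + e * H - m * (e * C)) / D - 1 / 2 =
      e * (((k : ℝ) / 2 - m) * C + (H - T / 2)) / D := by
    rw [div_sub' hDpos.ne', hD]
    congr 1
    ring
  rw [hval]
  -- the factor
  set q : ℝ := 2 ^ k * CC0 * e * C / D with hq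
  have hexp : 2 ^ k * CC0 * (e * (((k : ℝ) / 2 - m) * C + (H - T / 2)) / D) =
      q * (((k : ℝ) / 2 - m) + (H - T / 2) / C) := by
    rw [hq]
    have : C ≠ 0 := by linarith
    field_simp
  rw [hexp]
  -- 2^k e C = (2/μ)^k
  have h2e : 2 ^ k * (e * C) = (2 / μ) ^ k := by
    rw [← hpw, ← mul_pow]
    congr 1
    ring
  obtain ⟨hp1, hp2⟩ := pow_bound2 k hk μ hμ1
  rw [hpw] at hp2
  set t : ℝ := (2 / μ) ^ k with ht
  have ht1 : 1 ≤ t := one_le_pow₀ h21
  have hqt : q = t * CC0 / D := by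
    rw [hq, ← h2e]
    ring
  have hDC : D ≤ C := by
    have h9 : T ≤ ((k : ℝ) - 1) * C := by
      have h9' : (19 : ℝ) * 1 ≤ ((k : ℝ) - 1) * C :=
        mul_le_mul (by linarith) hC1 (by norm_num) (by linarith)
      linarith
    have h10 := mul_le_mul_of_nonneg_left h9 he0.le
    rw [hD]
    linarith
  have hq1 : 1 ≤ q := by
    rw [hqt, le_div_iff₀ hDpos]
    linarith
  have hq2 : (q - 1) * k ≤ 1 / 50 := by
    have h11 : (q - 1) * D = t * CC0 - D := by
      rw [hqt, sub_mul, div_mul_cancel₀ _ hDpos.ne']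
      ring
    have h12 : t * CC0 - D ≤ (t - 1) * C + k * (e * C) := by
      have h13 : t * CC0 ≤ t * C := mul_le_mul_of_nonneg_left hCC (by linarith)
      have h14 : D = C - k * (e * C) + e * C + e * T := by rw [hD]; ring
      linarith
    have h15 : (q - 1) * k * D ≤ (k * (t - 1)) * C + k * (k * (e * C)) := by
      have h16 := mul_le_mul_of_nonneg_left h12 (by positivity : (0 : ℝ) ≤ k)
      rw [← h11] at h16
      linarith
    have h17 : (k * (t - 1)) * C ≤ 1 / 100 * C :=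
      mul_le_mul_of_nonneg_right hp1 (by linarith)
    have h18 : (q - 1) * k * D ≤ 11 / 1000 * C := by linarith
    have h19 : 11 / 1000 * C ≤ 1 / 50 * D := by linarith
    exact le_of_mul_le_mul_right (h18.trans h19) hDpos
  have hq3 : q ≤ 1001 / 1000 := by
    have : (q - 1) * 20 ≤ (q - 1) * k := mul_le_mul_of_nonneg_left hk20 (by linarith)
    linarith
  have hHT2 : |(H - T / 2) / C| ≤ 3 / 4 * (1001 / 1000) := by
    rw [abs_div, abs_of_pos (by linarith : 0 < C), div_le_iff₀ (by linarith : 0 < C), abs_le]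
    constructor <;> linarith
  rw [abs_le] at hHT2 ⊢
  set z := (H - T / 2) / C with hz
  have hqk : (q - 1) * ((k : ℝ) / 2 - m) ≤ 1 / 100 := by
    have : (q - 1) * ((k : ℝ) / 2 - m) ≤ (q - 1) * (k / 2) :=
      mul_le_mul_of_nonneg_left (by linarith) (by linarith)
    linarith
  have hqk2 : -(1 / 100) ≤ (q - 1) * ((k : ℝ) / 2 - m) := by
    have : (q - 1) * (-(k / 2)) ≤ (q - 1) * ((k : ℝ) / 2 - m) :=
      mul_le_mul_of_nonneg_left (by linarith) (by linarith)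
    linarith
  have hfin : q * ((k : ℝ) / 2 - m + z) + (m - (k : ℝ) / 2) =
      (q - 1) * ((k : ℝ) / 2 - m) + q * z := by ring
  rw [hfin]
  have hz1 : q * z ≤ q * (3 / 4 * (1001 / 1000)) :=
    mul_le_mul_of_nonneg_left hHT2.2 (by linarith)
  have hz2 : q * -(3 / 4 * (1001 / 1000)) ≤ q * z :=
    mul_le_mul_of_nonneg_left hHT2.1 (by linarith)
  constructor <;> linarith

end Y413.FW
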