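import Pool.Agent.Y413.FW.PER

/-!
# Project FW: the loss of a periodic word
-/

set_option autoImplicit false

open Finset Filter Topology TH465.Fr

namespace Y413.FW

theorem count_eq (w : List Bool) (b : Bool) :
    w.count b = ∑ i ∈ range w.length, if lt w i = b then 1 else 0 := by
  induction w with
  | nil => simp
  | cons a t ih =>
    rw [List.length_cons, Finset.sum_range_succ', List.count_cons, ih]
    have h1 : ∀ i, lt (a :: t) (i + 1) = lt t i := fun i => by simp [lt]
    have h2 : lt (a :: t) 0 = a := by simp [lt]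
    simp only [h1, h2, beq_iff_eq]

theorem count_add (w : List Bool) : w.count true + w.count false = w.length := by
  induction w with
  | nil => simp
  | cons a t ih =>
    cases a <;> simp <;> omega

/-- a letter of a word with period `p` occurs at least `|w| / p` times -/
theorem count_ge {w : List Bool} {p : ℕ} (hp : p ∈ per w) (hp0 : 0 < p) (b : Bool)
    (hb : b ∈ w) : w.length / p ≤ w.count b := by
  rw [count_eq, ← Finset.sum_filter, Finset.sum_const, smul_eq_mul, mul_one]
  obtain ⟨i, hi, hi'⟩ := List.mem_iff_getElem.mp hb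
  have hib : lt w i = b := by
    unfold lt
    rw [List.getD_eq_getElem _ _ hi]
    exact hi'
  have hr : lt w (i % p) = b := by rw [← lt_mod hp hp0 i hi, hib]
  have h1 : ((range (w.length / p)).image (fun j => p * j + i % p)).card = w.length / p := by
    rw [Finset.card_image_of_injective, card_range]
    intro a c hac
    have : p * a = p * c := by
      have := hac
      simp only at this
      omega
    exact Nat.eq_of_mul_eq_mul_left hp0 this
  rw [← h1]
  refine Finset.card_le_card fun z hz => ?_
  rw [mem_image] at hz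
  obtain ⟨j, hj, rfl⟩ := hz
  rw [mem_range] at hj
  have h2 := Nat.mod_lt i hp0
  have h3 : p * j + i % p < w.length := by
    have h4 : p * (j + 1) ≤ p * (w.length / p) := Nat.mul_le_mul_left p hj
    have h5 := Nat.mul_div_le w.length p
    rw [Nat.mul_add, Nat.mul_one] at h4
    omega
  rw [mem_filter, mem_range]
  refine ⟨h3, ?_⟩
  rw [lt_mod hp hp0 _ h3, Nat.mul_add_mod, Nat.mod_mod, hr]

/-- the excess of a word with period `p` -/
theorem ex_le {w : List Bool} (h : NC w) {p : ℕ} (hp : p ∈ per w) (hp0 : 0 < p) :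
    |ex w| ≤ (w.length : ℝ) / 2 - ((w.length : ℝ) - (p - 1)) / p := by
  have h1 := count_ge hp hp0 true h.1
  have h2 := count_ge hp hp0 false h.2
  have h3 := count_add w
  have hp' : (0 : ℝ) < p := by exact_mod_cast hp0
  have h4 : ((w.length : ℝ) - (p - 1)) / p ≤ ((w.length / p : ℕ) : ℝ) := by
    rw [div_le_iff₀ hp']
    have h5 := Nat.div_add_mod w.length p
    have h6 := Nat.mod_lt w.length hp0
    have h7 : w.length + 1 ≤ (w.length / p) * p + p := by
      have : (w.length / p) * p = p * (w.length / p) := Nat.mul_comm _ _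
      omega
    have h8 : ((w.length : ℝ) + 1) ≤ ((w.length / p : ℕ) : ℝ) * p + p := by exact_mod_cast h7
    linarith
  have h1' : ((w.length / p : ℕ) : ℝ) ≤ (w.count true : ℝ) := by exact_mod_cast h1
  have h2' : ((w.length / p : ℕ) : ℝ) ≤ (w.count false : ℝ) := by exact_mod_cast h2
  have h3' : (w.count true : ℝ) + (w.count false : ℝ) = w.length := by exact_mod_cast h3
  unfold ex
  rw [abs_le]
  constructor <;> linarith

theorem ex_le_half (w : List Bool) : |ex w| ≤ (w.length : ℝ) / 2 := by
  have h3 := count_add w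
  have h3' : (w.count true : ℝ) + (w.count false : ℝ) = w.length := by exact_mod_cast h3
  have h1 : (0 : ℝ) ≤ (w.count true : ℝ) := by positivity
  have h2 : (0 : ℝ) ≤ (w.count false : ℝ) := by positivity
  unfold ex
  rw [abs_le]
  constructor <;> linarith

theorem t_GAIN : S_GAIN := by
  intro w h hk
  have hk20 : (20 : ℝ) ≤ w.length := by exact_mod_cast hk
  set σ : ℝ := ∑ p ∈ (per w).erase 0, (1 / 2 : ℝ) ^ p with hσ
  have hσ0 : 0 ≤ σ := Finset.sum_nonneg fun p _ => by positivity
  have hC : CC w = 1 + σ := CC_eq h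
  have hCpos : 0 < CC w := by linarith
  have hx0 : 0 ≤ |ex w| := abs_nonneg _
  have hloss : 1 - 1 / CC w ≤ σ := by
    rw [hC]
    have : (1 : ℝ) - σ ≤ 1 / (1 + σ) := by
      rw [le_div_iff₀ (by linarith)]
      nlinarith
    linarith
  have hloss1 : 1 - 1 / CC w ≤ 1 := by
    have : 0 ≤ 1 / CC w := by positivity
    linarith
  have hmain : ∀ a b : ℝ, |ex w| ≤ a → 1 - 1 / CC w ≤ b → 0 ≤ b →
      a * b ≤ (w.length : ℝ) / 48 + 1 / 2 →
      |ex w| * (1 - 1 / CC w) ≤ (w.length : ℝ) / 48 + 1 / 2 := by
    intro a b h1 h2 h3 h4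
    refine le_trans ?_ h4
    calc |ex w| * (1 - 1 / CC w) ≤ |ex w| * b := mul_le_mul_of_nonneg_left h2 hx0
      _ ≤ a * b := mul_le_mul_of_nonneg_right h1 h3
  have h1per := one_not_per h
  by_cases h2 : 2 ∈ per w
  · have h3 := ex_le h h2 (by norm_num)
    refine hmain (1 / 2) 1 (h3.trans (le_of_eq ?_)) hloss1 (by norm_num) (by linarith)
    push_cast
    ring
  by_cases h3 : 3 ∈ per w
  · have h4 := ex_le h h3 (by norm_num)
    -- split the other periods
    have h5 : σ ≤ 1 / 7 + 2 * (1 / 2) ^ (w.length - 2) := by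
      rw [hσ, ← Finset.sum_filter_add_sum_filter_not _ (fun p => p + 3 ≤ w.length)]
      refine add_le_add ?_ ?_
      · have := mult_sum (((per w).erase 0).filter (fun p => p + 3 ≤ w.length)) 3 (by norm_num)
          (fun p hp => by
            rw [mem_filter, mem_erase] at hp
            exact ⟨Nat.pos_of_ne_zero hp.1.1, per_three h h3 hp.1.2 hp.2⟩)
        norm_num at this ⊢
        exact this
      · refine tail_sum _ (w.length - 2) fun p hp => ?_
        rw [mem_filter] at hp
        omega
    set δ : ℝ := 2 * (1 / 2) ^ (w.length - 2) with hδ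
    have hδ0 : 0 < δ := by positivity
    have hδk : δ * w.length ≤ 1 / 1000 := by
      have h6 := two_pow_big w.length hk
      have h7 : δ = 8 / 2 ^ w.length := by
        rw [hδ, one_div_pow]
        have : (2 : ℝ) ^ w.length = 2 ^ (w.length - 2) * 4 := by
          rw [show (4 : ℝ) = 2 ^ 2 by norm_num, ← pow_add]
          congr 1
          omega
        rw [this]
        have h8 : (2 : ℝ) ^ (w.length - 2) ≠ 0 := by positivity
        field_simp
        norm_num
      rw [h7, div_mul_eq_mul_div, div_le_div_iff₀ (by positivity) (by norm_num)]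
      linarith
    have hδ1 : δ ≤ 1 / 1000 := by nlinarith
    have h6 : 1 - 1 / CC w ≤ 1 / 8 + δ := by
      rw [hC]
      have : 7 / 8 - δ ≤ 1 / (1 + σ) := by
        rw [le_div_iff₀ (by linarith)]
        nlinarith
      linarith
    refine hmain ((w.length : ℝ) / 6 + 2 / 3) (1 / 8 + δ) (h4.trans (le_of_eq ?_)) h6
      (by linarith) ?_
    · push_cast
      ring
    · have : ((w.length : ℝ) / 6 + 2 / 3) * (1 / 8 + δ) =
          (w.length : ℝ) / 48 + 1 / 12 + (δ * w.length) / 6 + 2 / 3 * δ := by ring
      rw [this]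
      linarith
  by_cases h4 : 4 ∈ per w
  · have h5 := ex_le h h4 (by norm_num)
    obtain ⟨n5, n6, n7⟩ := per_four h h4 h2 (by omega)
    have h6 : σ ≤ 9 / 128 := by
      rw [hσ, ← Finset.add_sum_erase ((per w).erase 0) _
        (mem_erase.mpr ⟨by norm_num, h4⟩ : 4 ∈ (per w).erase 0)]
      have := tail_sum (((per w).erase 0).erase 4) 8 (fun p hp => by
        rw [mem_erase, mem_erase] at hp
        obtain ⟨a1, a2, a3⟩ := hp
        have b1 : p ≠ 1 := fun e => h1per (e ▸ a3)
        have b2 : p ≠ 2 := fun e => h2 (e ▸ a3)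
        have b3 : p ≠ 3 := fun e => h3 (e ▸ a3)
        have b5 : p ≠ 5 := fun e => n5 (e ▸ a3)
        have b6 : p ≠ 6 := fun e => n6 (e ▸ a3)
        have b7 : p ≠ 7 := fun e => n7 (e ▸ a3)
        omega)
      norm_num at this ⊢
      linarith
    refine hmain ((w.length : ℝ) / 4 + 3 / 4) (9 / 128) (h5.trans (le_of_eq ?_))
      (hloss.trans h6) (by norm_num) (by linarith)
    push_cast
    ring
  by_cases h5 : 5 ∈ per w
  · have h6 := ex_le h h5 (by norm_num)
    have h7 : σ ≤ 1 / 16 := by
      have := tail_sum ((per w).erase 0) 5 (fun p hp => by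
        rw [mem_erase] at hp
        obtain ⟨a1, a3⟩ := hp
        have b1 : p ≠ 1 := fun e => h1per (e ▸ a3)
        have b2 : p ≠ 2 := fun e => h2 (e ▸ a3)
        have b3 : p ≠ 3 := fun e => h3 (e ▸ a3)
        have b4 : p ≠ 4 := fun e => h4 (e ▸ a3)
        omega)
      rw [hσ]
      norm_num at this ⊢
      linarith
    refine hmain ((w.length : ℝ) * (3 / 10) + 4 / 5) (1 / 16) (h6.trans (le_of_eq ?_))
      (hloss.trans h7) (by norm_num) (by linarith)
    push_cast
    ring
  · have h7 : σ ≤ 1 / 32 := by
      have := tail_sum ((per w).erase 0) 6 (fun p hp => by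
        rw [mem_erase] at hp
        obtain ⟨a1, a3⟩ := hp
        have b1 : p ≠ 1 := fun e => h1per (e ▸ a3)
        have b2 : p ≠ 2 := fun e => h2 (e ▸ a3)
        have b3 : p ≠ 3 := fun e => h3 (e ▸ a3)
        have b4 : p ≠ 4 := fun e => h4 (e ▸ a3)
        have b5 : p ≠ 5 := fun e => h5 (e ▸ a3)
        omega)
      rw [hσ]
      norm_num at this ⊢
      linarith
    exact hmain ((w.length : ℝ) / 2) (1 / 32) (ex_le_half w) (hloss.trans h7) (by norm_num)
      (by linarith)

end Y413.FW
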