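import Pool.Agent.Y413.FW.Stm

/-!
# Project FW: the limit of the frequencies
-/

set_option autoImplicit false

open Finset Filter Topology TH465.Fr

namespace Y413.FW

theorem mem_per {w : List Bool} {p : ℕ} : p ∈ per w ↔ p < w.length ∧ w.drop p <+: w := by
  simp [per]

theorem zero_mem_per {w : List Bool} (h : w ≠ []) : 0 ∈ per w := by
  rw [mem_per]
  exact ⟨List.length_pos_iff.mpr h, by simp⟩

theorem ident_A (hS : S_SPLIT) (w : List Bool) (hw : w ≠ []) (n : ℕ) :
    A w n = ∑ p ∈ per w, P w (n + w.length - p) := by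
  have h := hS w hw n (fun _ => 1)
  rw [A_eq, h]
  refine Finset.sum_congr rfl fun p _ => ?_
  rw [P_eq]

theorem ident_B (hS : S_SPLIT) (w : List Bool) (hw : w ≠ []) (n : ℕ) :
    (w.count true : ℝ) * A w n + B w n =
      ∑ p ∈ per w, (((w.take p).count true : ℝ) * P w (n + w.length - p) +
        PB w (n + w.length - p)) := by
  have h := hS w hw n (fun u => (u.count true : ℝ))
  have h1 : ∑ u ∈ Om w n, ((w ++ u).count true : ℝ) = (w.count true : ℝ) * A w n + B w n := by
    rw [A_eq, B, Finset.mul_sum, ← Finset.sum_add_distrib]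
    refine Finset.sum_congr rfl fun u _ => ?_
    rw [List.count_append]
    push_cast
    ring
  rw [← h1, h]
  refine Finset.sum_congr rfl fun p _ => ?_
  rw [P_eq, PB, Finset.mul_sum, ← Finset.sum_add_distrib]
  refine Finset.sum_congr rfl fun u _ => ?_
  rw [List.count_append]
  push_cast
  ring

/-- the coefficients -/
noncomputable def gc (S : Finset ℕ) (k : ℕ) (e : ℝ) (c : ℕ → ℝ) (i : ℕ) : ℝ :=
  ∑ p ∈ S, (if i < k - 1 - p then e * c p else 0) -
    ∑ p ∈ S.erase 0, (if i = k - 1 - p then c p else 0)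

theorem tele1 (k p : ℕ) (a : ℝ) (f : ℕ → ℝ) :
    ∑ i ∈ range (k - 1), (if i < k - 1 - p then a else 0) * (f (i + 1) - f i) =
      a * (f (k - 1 - p) - f 0) := by
  have h1 : ∀ i ∈ range (k - 1), (if i < k - 1 - p then a else 0) * (f (i + 1) - f i) =
      if i < k - 1 - p then a * (f (i + 1) - f i) else 0 := by
    intro i _
    split_ifs <;> ring
  rw [Finset.sum_congr rfl h1, ← Finset.sum_filter]
  have h2 : (range (k - 1)).filter (fun i => i < k - 1 - p) = range (k - 1 - p) := by
    ext i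
    simp only [mem_filter, mem_range]
    omega
  rw [h2, ← Finset.mul_sum, Finset.sum_range_sub]

theorem tele2 (k p : ℕ) (hp : 0 < p) (hpk : p < k) (a : ℝ) (f : ℕ → ℝ) :
    ∑ i ∈ range (k - 1), (if i = k - 1 - p then a else 0) * (f (i + 1) - f i) =
      a * (f (k - p) - f (k - 1 - p)) := by
  rw [Finset.sum_eq_single (k - 1 - p)]
  · rw [if_pos rfl, show k - 1 - p + 1 = k - p by omega]
  · intro i _ hi
    rw [if_neg hi, zero_mul]
  · intro h
    exact absurd (mem_range.mpr (by omega)) h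

theorem tele3 (S : Finset ℕ) (k : ℕ) (hS : ∀ p ∈ S, p < k) (e : ℝ) (c : ℕ → ℝ) (f : ℕ → ℝ) :
    ∑ i ∈ range (k - 1), gc S k e c i * (f (i + 1) - f i) =
      ∑ p ∈ S, e * c p * (f (k - 1 - p) - f 0) -
        ∑ p ∈ S.erase 0, c p * (f (k - p) - f (k - 1 - p)) := by
  have h1 : ∀ i ∈ range (k - 1), gc S k e c i * (f (i + 1) - f i) =
      ∑ p ∈ S, (if i < k - 1 - p then e * c p else 0) * (f (i + 1) - f i) -
        ∑ p ∈ S.erase 0, (if i = k - 1 - p then c p else 0) * (f (i + 1) - f i) := by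
    intro i _
    rw [gc, sub_mul, Finset.sum_mul, Finset.sum_mul]
  rw [Finset.sum_congr rfl h1, Finset.sum_sub_distrib, Finset.sum_comm,
    Finset.sum_comm (t := S.erase 0)]
  congr 1
  · exact Finset.sum_congr rfl fun p _ => tele1 k p (e * c p) f
  · refine Finset.sum_congr rfl fun p hp => ?_
    rw [mem_erase] at hp
    exact tele2 k p (Nat.pos_of_ne_zero hp.1) (hS p hp.2) (c p) f

theorem gc_abs (S : Finset ℕ) (k : ℕ) (hk : 0 < k) (hS : ∀ p ∈ S, p < k) (e : ℝ) (he : 0 ≤ e)
    (c : ℕ → ℝ) (hc : ∀ p, 0 ≤ c p) :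
    ∑ i ∈ range (k - 1), |gc S k e c i| ≤
      e * k * ∑ p ∈ S, c p + ∑ p ∈ S.erase 0, c p := by
  have h1 : ∀ i ∈ range (k - 1), |gc S k e c i| ≤
      (∑ p ∈ S, (if i < k - 1 - p then e * c p else 0) +
        ∑ p ∈ S.erase 0, (if i = k - 1 - p then c p else 0)) := by
    intro i _
    have a1 : 0 ≤ ∑ p ∈ S, (if i < k - 1 - p then e * c p else 0) :=
      Finset.sum_nonneg fun p _ => by
        split_ifs
        · exact mul_nonneg he (hc p)
        · exact le_rfl
    have a2 : 0 ≤ ∑ p ∈ S.erase 0, (if i = k - 1 - p then c p else 0) :=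
      Finset.sum_nonneg fun p _ => by
        split_ifs
        · exact hc p
        · exact le_rfl
    rw [gc, abs_le]
    constructor <;> linarith
  refine (Finset.sum_le_sum h1).trans ?_
  rw [Finset.sum_add_distrib, Finset.sum_comm, Finset.sum_comm (t := S.erase 0)]
  refine add_le_add ?_ ?_
  · rw [Finset.mul_sum]
    refine Finset.sum_le_sum fun p _ => ?_
    have h2 : ∑ i ∈ range (k - 1), (if i < k - 1 - p then e * c p else 0) =
        (k - 1 - p : ℕ) * (e * c p) := by
      rw [← Finset.sum_filter]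
      have h3 : (range (k - 1)).filter (fun i => i < k - 1 - p) = range (k - 1 - p) := by
        ext i
        simp only [mem_filter, mem_range]
        omega
      rw [h3, Finset.sum_const, card_range, nsmul_eq_mul]
    rw [h2]
    have h4 : ((k - 1 - p : ℕ) : ℝ) ≤ k := by
      exact_mod_cast (by omega : k - 1 - p ≤ k)
    have h5 := mul_nonneg he (hc p)
    nlinarith
  · refine Finset.sum_le_sum fun p hp => ?_
    rw [mem_erase] at hp
    have hpk := hS p hp.2
    have hp0 := Nat.pos_of_ne_zero hp.1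
    have := tele2 k p hp0 hpk (c p) (fun i => (i : ℝ))
    have h6 : ∑ i ∈ range (k - 1), (if i = k - 1 - p then c p else 0) =
        ∑ i ∈ range (k - 1), (if i = k - 1 - p then c p else 0) *
          ((((i + 1 : ℕ) : ℝ)) - (i : ℝ)) := by
      refine Finset.sum_congr rfl fun i _ => ?_
      push_cast
      ring
    rw [h6, this]
    have h7 : ((k - p : ℕ) : ℝ) - ((k - 1 - p : ℕ) : ℝ) = 1 := by
      rw [show k - p = k - 1 - p + 1 by omega]
      push_cast
      ring
    rw [h7, mul_one]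

theorem P_succ (w : List Bool) (n : ℕ) : P w (n + 1) = 2 * A w n - A w (n + 1) := by
  have := A_succ w n
  linarith

theorem PB_succ (w : List Bool) (n : ℕ) :
    PB w (n + 1) = 2 * B w n + A w n - B w (n + 1) := by
  have := B_succ w n
  linarith

/-- the recurrence for the number of words, normalised -/
theorem rec_x (hS : S_SPLIT) (w : List Bool) (hw : w ≠ []) (μ : ℝ) (hμ : 0 < μ)
    (hroot : (2 / μ - 1) * ∑ p ∈ per w, μ ^ (w.length - p) = 1) (n : ℕ) :
    ∑ p ∈ per w, (1 / μ) ^ p * ((A w (n + (w.length - p)) / μ ^ (n + (w.length - p)) -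
      A w (n + (w.length - 1 - p)) / μ ^ (n + (w.length - 1 - p))) -
      (2 / μ - 1) * (A w (n + (w.length - 1 - p)) / μ ^ (n + (w.length - 1 - p)) -
        A w n / μ ^ n)) = 0 := by
  have h := ident_A hS w hw n
  have hk : ∀ p ∈ per w, p < w.length := fun p hp => (mem_per.mp hp).1
  have hpw : (1 / μ) ^ w.length = (2 / μ - 1) * ∑ p ∈ per w, (1 / μ) ^ p := by
    have h1 : (1 / μ) ^ w.length * ((2 / μ - 1) * ∑ p ∈ per w, μ ^ (w.length - p)) =
        (1 / μ) ^ w.length := by rw [hroot, mul_one]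
    rw [← h1, Finset.mul_sum, Finset.mul_sum, Finset.mul_sum]
    refine Finset.sum_congr rfl fun p hp => ?_
    have h2 := hk p hp
    have h3 : (1 / μ) ^ w.length = (1 / μ) ^ p * (1 / μ) ^ (w.length - p) := by
      rw [← pow_add]
      congr 1
      omega
    have h4 : (1 / μ) ^ (w.length - p) * μ ^ (w.length - p) = 1 := by
      rw [← mul_pow, one_div_mul_cancel hμ.ne', one_pow]
    rw [h3]
    linear_combination ((1 / μ) ^ p * (2 / μ - 1)) * h4
  have h5 : ∑ p ∈ per w, (1 / μ) ^ p * ((A w (n + (w.length - p)) / μ ^ (n + (w.length - p)) -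
      A w (n + (w.length - 1 - p)) / μ ^ (n + (w.length - 1 - p))) -
      (2 / μ - 1) * (A w (n + (w.length - 1 - p)) / μ ^ (n + (w.length - 1 - p)) -
        A w n / μ ^ n)) =
      -(∑ p ∈ per w, P w (n + w.length - p)) / μ ^ (n + w.length) +
        ((2 / μ - 1) * ∑ p ∈ per w, (1 / μ) ^ p) * (A w n / μ ^ n) := by
    rw [neg_div, Finset.sum_div, Finset.mul_sum, Finset.sum_mul, ← Finset.sum_neg_distrib,
      ← Finset.sum_add_distrib]
    refine Finset.sum_congr rfl fun p hp => ?_
    have h2 := hk p hp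
    rw [show n + w.length - p = n + (w.length - 1 - p) + 1 by omega, P_succ,
      show n + (w.length - p) = n + (w.length - 1 - p) + 1 by omega,
      show n + w.length = n + (w.length - 1 - p) + 1 + p by omega]
    have hp1 : μ ^ (n + (w.length - 1 - p)) ≠ 0 := by positivity
    have hp2 : μ ^ n ≠ 0 := by positivity
    have hp3 : μ ^ p ≠ 0 := by positivity
    rw [pow_add μ _ p, pow_succ, one_div_pow]
    field_simp
    ring
  rw [h5, ← h, ← hpw, pow_add, one_div_pow]
  have hp2 : μ ^ n ≠ 0 := by positivity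
  have hp3 : μ ^ w.length ≠ 0 := by positivity
  field_simp
  ring

theorem root_pow (w : List Bool) (μ : ℝ) (hμ : 0 < μ)
    (hroot : (2 / μ - 1) * ∑ p ∈ per w, μ ^ (w.length - p) = 1) :
    (1 / μ) ^ w.length = (2 / μ - 1) * ∑ p ∈ per w, (1 / μ) ^ p := by
  have h1 : (1 / μ) ^ w.length * ((2 / μ - 1) * ∑ p ∈ per w, μ ^ (w.length - p)) =
      (1 / μ) ^ w.length := by rw [hroot, mul_one]
  rw [← h1, Finset.mul_sum, Finset.mul_sum, Finset.mul_sum]
  refine Finset.sum_congr rfl fun p hp => ?_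
  have h2 := (mem_per.mp hp).1
  have h3 : (1 / μ) ^ w.length = (1 / μ) ^ p * (1 / μ) ^ (w.length - p) := by
    rw [← pow_add]
    congr 1
    omega
  have h4 : (1 / μ) ^ (w.length - p) * μ ^ (w.length - p) = 1 := by
    rw [← mul_pow, one_div_mul_cancel hμ.ne', one_pow]
  rw [h3]
  linear_combination ((1 / μ) ^ p * (2 / μ - 1)) * h4

/-- the source term -/
noncomputable def src (w : List Bool) (μ : ℝ) (n : ℕ) : ℝ :=
  ∑ p ∈ per w, (1 / μ) ^ p * (((w.take p).count true : ℝ) *
      ((2 / μ - 1) * (A w (n + (w.length - 1 - p)) / μ ^ (n + (w.length - 1 - p))) -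
        (A w (n + (w.length - p)) / μ ^ (n + (w.length - p)) -
          A w (n + (w.length - 1 - p)) / μ ^ (n + (w.length - 1 - p)))) +
      1 / μ * (A w (n + (w.length - 1 - p)) / μ ^ (n + (w.length - 1 - p)))) -
    (w.count true : ℝ) * (1 / μ) ^ w.length * (A w n / μ ^ n)

/-- the recurrence for the number of ones, normalised -/
theorem rec_y (hS : S_SPLIT) (w : List Bool) (hw : w ≠ []) (μ : ℝ) (hμ : 0 < μ)
    (hroot : (2 / μ - 1) * ∑ p ∈ per w, μ ^ (w.length - p) = 1) (n : ℕ) :
    ∑ p ∈ per w, (1 / μ) ^ p * ((B w (n + (w.length - p)) / μ ^ (n + (w.length - p)) -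
      B w (n + (w.length - 1 - p)) / μ ^ (n + (w.length - 1 - p))) -
      (2 / μ - 1) * (B w (n + (w.length - 1 - p)) / μ ^ (n + (w.length - 1 - p)) -
        B w n / μ ^ n)) = src w μ n := by
  have h := ident_B hS w hw n
  have hk : ∀ p ∈ per w, p < w.length := fun p hp => (mem_per.mp hp).1
  have hpw := root_pow w μ hμ hroot
  have h5 : ∑ p ∈ per w, (1 / μ) ^ p * ((B w (n + (w.length - p)) / μ ^ (n + (w.length - p)) -
      B w (n + (w.length - 1 - p)) / μ ^ (n + (w.length - 1 - p))) -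
      (2 / μ - 1) * (B w (n + (w.length - 1 - p)) / μ ^ (n + (w.length - 1 - p)) -
        B w n / μ ^ n)) - ∑ p ∈ per w, (1 / μ) ^ p * (((w.take p).count true : ℝ) *
      ((2 / μ - 1) * (A w (n + (w.length - 1 - p)) / μ ^ (n + (w.length - 1 - p))) -
        (A w (n + (w.length - p)) / μ ^ (n + (w.length - p)) -
          A w (n + (w.length - 1 - p)) / μ ^ (n + (w.length - 1 - p)))) +
      1 / μ * (A w (n + (w.length - 1 - p)) / μ ^ (n + (w.length - 1 - p)))) =
      -(∑ p ∈ per w, (((w.take p).count true : ℝ) * P w (n + w.length - p) +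
        PB w (n + w.length - p))) / μ ^ (n + w.length) +
        ((2 / μ - 1) * ∑ p ∈ per w, (1 / μ) ^ p) * (B w n / μ ^ n) := by
    rw [neg_div, Finset.sum_div, Finset.mul_sum, Finset.sum_mul, ← Finset.sum_neg_distrib,
      ← Finset.sum_add_distrib, ← Finset.sum_sub_distrib]
    refine Finset.sum_congr rfl fun p hp => ?_
    have h2 := hk p hp
    rw [show n + w.length - p = n + (w.length - 1 - p) + 1 by omega, P_succ, PB_succ,
      show n + (w.length - p) = n + (w.length - 1 - p) + 1 by omega,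
      show n + w.length = n + (w.length - 1 - p) + 1 + p by omega]
    have hp1 : μ ^ (n + (w.length - 1 - p)) ≠ 0 := by positivity
    have hp2 : μ ^ n ≠ 0 := by positivity
    have hp3 : μ ^ p ≠ 0 := by positivity
    rw [pow_add μ _ p, pow_succ, one_div_pow]
    field_simp
    ring
  rw [← h, ← hpw] at h5
  rw [src]
  have h6 : -((w.count true : ℝ) * A w n + B w n) / μ ^ (n + w.length) +
      (1 / μ) ^ w.length * (B w n / μ ^ n) =
      -((w.count true : ℝ) * (1 / μ) ^ w.length * (A w n / μ ^ n)) := by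
    have hp2 : μ ^ n ≠ 0 := by positivity
    have hp3 : μ ^ w.length ≠ 0 := by positivity
    rw [pow_add, one_div_pow]
    field_simp
    ring
  rw [h6] at h5
  linarith

theorem pow_bound (k : ℕ) (hk : 20 ≤ k) (μ : ℝ) (h1 : 2 - 8 / 2 ^ k ≤ μ) :
    0 < μ ∧ (2 / μ) ^ k ≤ 1001 / 1000 ∧ k * (1 / μ) ^ k ≤ 1 / 1000 := by
  have hk2 : ∀ m : ℕ, 20 ≤ m → (m : ℝ) * 50000 ≤ 2 ^ m := by
    intro m hm
    induction m, hm using Nat.le_induction with
    | base => norm_num
    | succ m hm ih =>
      rw [pow_succ]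
      have : (20 : ℝ) ≤ m := by exact_mod_cast hm
      push_cast
      nlinarith
  have hkk := hk2 k hk
  have hk20 : (20 : ℝ) ≤ k := by exact_mod_cast hk
  have h2k : (0 : ℝ) < 2 ^ k := by positivity
  have hsm : (1 : ℝ) / 2 ^ k * k ≤ 1 / 50000 := by
    rw [div_mul_eq_mul_div, one_mul, div_le_div_iff₀ h2k (by norm_num)]
    linarith
  have hsm1 : (1 : ℝ) / 2 ^ k ≤ 1 / 1000000 := by
    have : (1 : ℝ) / 2 ^ k * 20 ≤ 1 / 2 ^ k * k :=
      mul_le_mul_of_nonneg_left hk20 (by positivity)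
    linarith
  have hμ2 : 1 - 4 * (1 / 2 ^ k) ≤ μ / 2 := by
    have : (8 : ℝ) / 2 ^ k = 8 * (1 / 2 ^ k) := by ring
    rw [this] at h1
    linarith
  have hμ : 0 < μ := by linarith
  have hb := one_add_mul_le_pow (a := -(4 * (1 / 2 ^ k) : ℝ)) (by linarith) k
  have hpow : (1 + -(4 * (1 / 2 ^ k) : ℝ)) ^ k ≤ (μ / 2) ^ k := by
    apply pow_le_pow_left₀
    · linarith
    · linarith
  have hlow : 1 - 4 / 50000 ≤ (μ / 2) ^ k := by
    have : (k : ℝ) * -(4 * (1 / 2 ^ k)) = -(4 * (1 / 2 ^ k * k)) := by ring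
    rw [this] at hb
    linarith
  have hpos : (0 : ℝ) < (μ / 2) ^ k := by positivity
  have hinv : (2 / μ) ^ k = 1 / (μ / 2) ^ k := by
    rw [← one_div_pow, one_div_div]
  have hA : (2 / μ) ^ k ≤ 1001 / 1000 := by
    rw [hinv, div_le_iff₀ hpos]
    linarith
  refine ⟨hμ, hA, ?_⟩
  have h3 : (1 / μ) ^ k = (2 / μ) ^ k * (1 / 2 ^ k) := by
    rw [← one_div_pow, ← mul_pow]
    congr 1
    field_simp
  rw [h3]
  have h4 : (k : ℝ) * ((2 / μ) ^ k * (1 / 2 ^ k)) = (2 / μ) ^ k * (1 / 2 ^ k * k) := by ring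
  rw [h4]
  have h5 : 0 ≤ (1 : ℝ) / 2 ^ k * k := by positivity
  nlinarith

theorem len_ge_two {w : List Bool} (h : 20 ≤ w.length) : w ≠ [] := by
  rintro rfl
  simp at h

theorem t_LIM (hS : S_SPLIT) (hC : S_C43) : S_LIM := by
  intro w hnc hk μ h1 h2 hroot
  have hw := len_ge_two hk
  obtain ⟨hμ, hb1, hb2⟩ := pow_bound w.length hk μ h1
  set k := w.length with hkdef
  set S := per w with hSdef
  have hSk : ∀ p ∈ S, p < k := fun p hp => (mem_per.mp hp).1
  have h0S : 0 ∈ S := zero_mem_per hw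
  set e : ℝ := 2 / μ - 1 with he
  have he0 : 0 < e := by
    rw [he, sub_pos, lt_div_iff₀ hμ]
    linarith
  set c : ℕ → ℝ := fun p => (1 / μ) ^ p with hc
  have hc0 : ∀ p, 0 ≤ c p := fun p => by positivity
  have hroot' := root_pow w μ hμ hroot
  rw [← hkdef, ← hSdef, ← he] at hroot'
  -- the sum of the coefficients
  have hCle : ∑ p ∈ S, c p ≤ 1001 / 1000 * (4 / 3) := by
    have h3 : ∀ p ∈ S, c p ≤ 1001 / 1000 * (1 / 2 : ℝ) ^ p := by
      intro p hp
      have h4 : c p = (2 / μ) ^ p * (1 / 2 : ℝ) ^ p := by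
        simp only [hc]
        rw [← mul_pow]
        congr 1
        field_simp
      rw [h4]
      refine mul_le_mul_of_nonneg_right ?_ (by positivity)
      refine le_trans (pow_le_pow_right₀ ?_ (hSk p hp).le) hb1
      rw [le_div_iff₀ hμ]
      linarith
    refine (Finset.sum_le_sum h3).trans ?_
    rw [← Finset.mul_sum]
    exact mul_le_mul_of_nonneg_left (hC w hnc) (by norm_num)
  have hCer : ∑ p ∈ S.erase 0, c p = ∑ p ∈ S, c p - 1 := by
    have := Finset.add_sum_erase S c h0S
    simp only [hc, pow_zero] at this ⊢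
    linarith
  set g := gc S k e c with hg
  have hgabs : ∑ i ∈ range (k - 1), |g i| ≤ 1 / 2 := by
    refine (gc_abs S k (by omega) hSk e he0.le c hc0).trans ?_
    rw [hCer]
    have h3 : e * k * ∑ p ∈ S, c p = k * (1 / μ) ^ k := by
      rw [hroot']
      ring
    rw [h3]
    linarith
  set x : ℕ → ℝ := fun n => A w n / μ ^ n with hx
  set y : ℕ → ℝ := fun n => B w n / μ ^ n with hy
  have hxr := rec_x hS w hw μ hμ hroot
  have hyr := rec_y hS w hw μ hμ hroot
  have hsplit : ∀ (f : ℕ → ℝ) (n : ℕ), ∑ p ∈ S, c p * ((f (n + (k - p)) - f (n + (k - 1 - p))) -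
      e * (f (n + (k - 1 - p)) - f n)) =
      (f (n + 1 + (k - 1)) - f (n + (k - 1))) -
        ∑ i ∈ range (k - 1), g i * (f (n + 1 + i) - f (n + i)) := by
    intro f n
    have h3 := tele3 S k hSk e c (fun i => f (n + i))
    have h4 : ∑ i ∈ range (k - 1), g i * (f (n + 1 + i) - f (n + i)) =
        ∑ i ∈ range (k - 1), gc S k e c i * (f (n + (i + 1)) - f (n + i)) := by
      refine Finset.sum_congr rfl fun i _ => ?_
      rw [show n + 1 + i = n + (i + 1) by omega]
    rw [h4, h3, ← Finset.add_sum_erase S _ h0S]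
    have h5 : ∑ p ∈ S, e * c p * (f (n + (k - 1 - p)) - f (n + 0)) =
        e * c 0 * (f (n + (k - 1)) - f n) +
          ∑ p ∈ S.erase 0, e * c p * (f (n + (k - 1 - p)) - f n) := by
      rw [← Finset.add_sum_erase S _ h0S]
      simp
    rw [h5]
    have h6 : ∑ p ∈ S.erase 0, c p * ((f (n + (k - p)) - f (n + (k - 1 - p))) -
        e * (f (n + (k - 1 - p)) - f n)) =
        ∑ p ∈ S.erase 0, c p * (f (n + (k - p)) - f (n + (k - 1 - p))) -
          ∑ p ∈ S.erase 0, e * c p * (f (n + (k - 1 - p)) - f n) := by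
      rw [← Finset.sum_sub_distrib]
      refine Finset.sum_congr rfl fun p _ => ?_
      ring
    rw [h6]
    have h7 : c 0 = 1 := by simp [hc]
    rw [h7, show n + 1 + (k - 1) = n + k by omega, Nat.sub_zero, Nat.sub_zero]
    ring
  have hlim := ratio_limit (k - 1) g hgabs x y (fun n => src w μ n)
    (∑ p ∈ S, (1 / μ) ^ p * (((w.take p).count true : ℝ) * e + 1 / μ) -
        (w.count true : ℝ) * (1 / μ) ^ k) ?_ ?_ ?_ ?_
  · have hG : 1 - ∑ i ∈ range (k - 1), g i = ∑ p ∈ S, (1 / μ) ^ p -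
        e * ∑ p ∈ S, (1 / μ) ^ p * ((k : ℝ) - 1 - p) := by
      have h3 := tele3 S k hSk e c (fun i => (i : ℝ))
      have h4 : ∑ i ∈ range (k - 1), gc S k e c i * (((i + 1 : ℕ) : ℝ) - (i : ℝ)) =
          ∑ i ∈ range (k - 1), g i := by
        refine Finset.sum_congr rfl fun i _ => ?_
        push_cast
        ring
      rw [h4] at h3
      rw [h3]
      have h5 : ∑ p ∈ S.erase 0, c p * (((k - p : ℕ) : ℝ) - ((k - 1 - p : ℕ) : ℝ)) =
          ∑ p ∈ S.erase 0, c p := by
        refine Finset.sum_congr rfl fun p hp => ?_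
        rw [mem_erase] at hp
        have := hSk p hp.2
        rw [show k - p = k - 1 - p + 1 by omega]
        push_cast
        ring
      have h6 : ∑ p ∈ S, e * c p * (((k - 1 - p : ℕ) : ℝ) - ((0 : ℕ) : ℝ)) =
          e * ∑ p ∈ S, (1 / μ) ^ p * ((k : ℝ) - 1 - p) := by
        rw [Finset.mul_sum]
        refine Finset.sum_congr rfl fun p hp => ?_
        have := hSk p hp
        rw [Nat.cast_sub (by omega), Nat.cast_sub (by omega)]
        simp only [hc]
        push_cast
        ring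
      rw [h5, h6, hCer]
      simp only [hc]
      ring
    rw [hG] at hlim
    refine hlim.congr fun n => ?_
    simp only [hx, hy]
    have hp : μ ^ n ≠ 0 := by positivity
    by_cases hn : (n : ℝ) * A w n = 0
    · rw [hn]
      rcases mul_eq_zero.mp hn with h | h
      · rw [h]; simp
      · rw [h]; simp
    · have hn1 : (n : ℝ) ≠ 0 := fun h => hn (by rw [h]; ring)
      have hn2 : A w n ≠ 0 := fun h => hn (by rw [h]; ring)
      field_simp
  · intro n
    have h3 := hxr n
    have h4 := hsplit x n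
    rw [h4] at h3
    linarith
  · intro n
    have h3 := hyr n
    have h4 := hsplit y n
    rw [h4] at h3
    linarith
  · intro d hd
    have ht : ∀ j : ℕ, Tendsto (fun n => x (n + j)) atTop (𝓝 d) := fun j =>
      (tendsto_add_atTop_iff_nat j).mpr hd
    have h3 : Tendsto (fun n => src w μ n) atTop (𝓝 (∑ p ∈ S, (1 / μ) ^ p *
        (((w.take p).count true : ℝ) * (e * d - (d - d)) + 1 / μ * d) -
        (w.count true : ℝ) * (1 / μ) ^ k * d)) := by
      unfold src
      refine Tendsto.sub ?_ (hd.const_mul _)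
      refine tendsto_finsetSum _ fun p _ => ?_
      refine Tendsto.const_mul _ (Tendsto.add (Tendsto.const_mul _ (Tendsto.sub
        ((ht _).const_mul _) ((ht _).sub (ht _)))) ((ht _).const_mul _))
    have h4 : ∑ p ∈ S, (1 / μ) ^ p *
        (((w.take p).count true : ℝ) * (e * d - (d - d)) + 1 / μ * d) -
        (w.count true : ℝ) * (1 / μ) ^ k * d =
        (∑ p ∈ S, (1 / μ) ^ p * (((w.take p).count true : ℝ) * e + 1 / μ) -
        (w.count true : ℝ) * (1 / μ) ^ k) * d := by
      have h5 : (∑ p ∈ S, (1 / μ) ^ p * (((w.take p).count true : ℝ) * e + 1 / μ)) * d =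
          ∑ p ∈ S, (1 / μ) ^ p *
            (((w.take p).count true : ℝ) * (e * d - (d - d)) + 1 / μ * d) := by
        rw [Finset.sum_mul]
        refine Finset.sum_congr rfl fun p _ => ?_
        ring
      rw [← h5]
      ring
    rw [h4] at h3
    exact h3
  · have hxs : ∀ i, i < k → x i = (2 / μ) ^ i := by
      intro i hi
      simp only [hx]
      rw [A_small w hw i hi, div_pow]
    have h21 : 1 ≤ 2 / μ := by
      rw [le_div_iff₀ hμ]
      linarith
    have h3 : ∀ i ∈ range (k - 1), g i * x i ≤ |g i| * (2 / μ) ^ (k - 1) := by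
      intro i hi
      have hi' := mem_range.mp hi
      rw [hxs i (by omega)]
      calc g i * (2 / μ) ^ i ≤ |g i| * (2 / μ) ^ i :=
            mul_le_mul_of_nonneg_right (le_abs_self _) (by positivity)
        _ ≤ |g i| * (2 / μ) ^ (k - 1) :=
            mul_le_mul_of_nonneg_left (pow_le_pow_right₀ h21 hi'.le) (abs_nonneg _)
    have h4 := Finset.sum_le_sum h3
    rw [← Finset.sum_mul] at h4
    rw [hxs (k - 1) (by omega)]
    have h5 : (0 : ℝ) < (2 / μ) ^ (k - 1) := by positivity
    nlinarith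

end Y413.FW
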