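import Pool.Agent.Y413.FW.LIM
import Pool.Agent.Y413.FW.ROOT

/-!
# Project FW: periods
-/

set_option autoImplicit false

open Finset Filter Topology TH465.Fr

namespace Y413.FW

/-- the letter number `i` (with a default) -/
def lt (w : List Bool) (i : ℕ) : Bool := w.getD i false

theorem per_iff {w : List Bool} {p : ℕ} :
    p ∈ per w ↔ p < w.length ∧ ∀ i, i + p < w.length → lt w (i + p) = lt w i := by
  rw [mem_per]
  refine and_congr_right fun hp => ?_
  rw [List.prefix_iff_eq_take]
  constructor
  · intro h i hi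
    have h1 : (w.drop p).getD i false = (w.take (w.drop p).length).getD i false :=
      congrArg (fun l => l.getD i false) h
    rw [List.length_drop] at h1
    have h2 : (w.drop p).getD i false = lt w (i + p) := by
      unfold lt
      simp [List.getD_eq_getElem?_getD, Nat.add_comm]
    have h3 : (w.take (w.length - p)).getD i false = lt w i := by
      unfold lt
      rw [List.getD_eq_getElem?_getD, List.getD_eq_getElem?_getD, List.getElem?_take_of_lt (by omega)]
    rw [h2, h3] at h1
    exact h1
  · intro h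
    apply List.ext_getElem
    · simp
    · intro i h1 h2
      rw [List.length_drop] at h1
      have h3 := h i (by omega)
      unfold lt at h3
      rw [List.getD_eq_getElem _ _ (by omega), List.getD_eq_getElem _ _ (by omega)] at h3
      rw [List.getElem_drop, List.getElem_take]
      have : w[p + i] = w[i + p] := by congr 1; omega
      rw [this]
      exact h3

theorem nc_lt {w : List Bool} (h : NC w) : ∃ i j, i < w.length ∧ j < w.length ∧
    lt w i = true ∧ lt w j = false := by
  obtain ⟨h1, h2⟩ := h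
  obtain ⟨i, hi, hi'⟩ := List.mem_iff_getElem.mp h1
  obtain ⟨j, hj, hj'⟩ := List.mem_iff_getElem.mp h2
  refine ⟨i, j, hi, hj, ?_, ?_⟩
  · unfold lt
    rw [List.getD_eq_getElem _ _ hi]
    exact hi'
  · unfold lt
    rw [List.getD_eq_getElem _ _ hj]
    exact hj'

/-- a word all of whose letters are equal is not `NC` -/
theorem not_nc {w : List Bool} (h : NC w) (b : Bool) (hb : ∀ i, i < w.length → lt w i = b) :
    False := by
  obtain ⟨i, j, hi, hj, h1, h2⟩ := nc_lt h
  have h3 := hb i hi
  have h4 := hb j hj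
  rw [h1] at h3
  rw [h2] at h4
  rw [← h3] at h4
  exact Bool.noConfusion h4

/-- reduction modulo a period -/
theorem lt_mod {w : List Bool} {p : ℕ} (hp : p ∈ per w) (hp0 : 0 < p) :
    ∀ i, i < w.length → lt w i = lt w (i % p) := by
  rw [per_iff] at hp
  intro i
  induction i using Nat.strong_induction_on with
  | _ i ih =>
    intro hi
    by_cases hlt : i < p
    · rw [Nat.mod_eq_of_lt hlt]
    · have h1 := hp.2 (i - p) (by omega)
      rw [show i - p + p = i by omega] at h1
      rw [h1, ih (i - p) (by omega) (by omega)]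
      congr 1
      conv_rhs => rw [show i = (i - p) + p by omega]
      rw [Nat.add_mod_right]

/-- periods `p` and `q` with `q` congruent to `1` or `-1` modulo `p` make the word constant -/
theorem const_of {w : List Bool} (h : NC w) {p q : ℕ} (hp : p ∈ per w) (hp0 : 0 < p)
    (hq : q ∈ per w) (hlen : p + q ≤ w.length) (hpq : ∀ i, i + 1 < p → ∃ j, j ≤ 1 ∧
      (i + j + q) % p = (i + 1 - j) ) : False := by
  -- all letters w_0, ..., w_(p-1) are equal
  have hq' := (per_iff.mp hq)
  have h1 : ∀ i, i < p → i < w.length → lt w i = lt w 0 := by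
    intro i
    induction i with
    | zero => intro _ _; rfl
    | succ i ih =>
      intro hi hi'
      obtain ⟨j, hj, hm⟩ := hpq i hi
      have h2 := hq'.2 (i + j) (by omega)
      have h3 := lt_mod hp hp0 (i + j + q) (by omega)
      rw [hm] at h3
      interval_cases j
      · -- j = 0 : lt (i+1) = lt i
        simp only [add_zero, Nat.sub_zero] at h2 h3
        rw [← h3, h2]
        exact ih (by omega) (by omega)
      · simp only [Nat.add_sub_cancel] at h2 h3
        rw [← h2, h3]
        exact ih (by omega) (by omega)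
  refine not_nc h (lt w 0) fun i hi => ?_
  rw [lt_mod hp hp0 i hi]
  have h4 := Nat.mod_lt i hp0
  exact h1 _ h4 (by
    have := Nat.mod_le i p
    omega)

theorem one_not_per {w : List Bool} (h : NC w) : 1 ∉ per w := by
  intro h1
  refine not_nc h (lt w 0) fun i hi => ?_
  rw [lt_mod h1 (by norm_num) i hi, Nat.mod_one]

/-- `3` is a period: other periods are multiples of `3`, or almost the length -/
theorem per_three {w : List Bool} (h : NC w) (h3 : 3 ∈ per w) {q : ℕ} (hq : q ∈ per w)
    (hq3 : q + 3 ≤ w.length) : 3 ∣ q := by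
  by_contra hd
  have hcase : q % 3 = 1 ∨ q % 3 = 2 := by omega
  refine const_of h h3 (by norm_num) hq (by omega) fun i hi => ?_
  rcases hcase with hc | hc
  · exact ⟨0, by norm_num, by omega⟩
  · exact ⟨1, le_rfl, by omega⟩

theorem per_two {w : List Bool} (h : NC w) (h2 : 2 ∈ per w) {q : ℕ} (hq : q ∈ per w) :
    2 ∣ q := by
  by_contra hd
  have h2' := per_iff.mp h2
  have hq' := per_iff.mp hq
  -- `w_0 ≠ w_1`
  have h01 : lt w 0 ≠ lt w 1 := by
    intro he
    refine not_nc h (lt w 0) fun i hi => ?_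
    rw [lt_mod h2 (by norm_num) i hi]
    have : i % 2 = 0 ∨ i % 2 = 1 := by omega
    rcases this with h3 | h3
    · rw [h3]
    · rw [h3, he]
  have h3 := hq'.2 0 (by omega)
  have h4 := lt_mod h2 (by norm_num) q hq'.1
  have h5 : q % 2 = 1 := by omega
  rw [h5] at h4
  rw [Nat.zero_add] at h3
  exact h01 (by rw [← h3, h4])

theorem per_four {w : List Bool} (h : NC w) (h4 : 4 ∈ per w) (h2 : 2 ∉ per w)
    (hk : 12 ≤ w.length) : 5 ∉ per w ∧ 6 ∉ per w ∧ 7 ∉ per w := by
  refine ⟨fun h5 => ?_, fun h6 => ?_, fun h7 => ?_⟩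
  · refine const_of h h4 (by norm_num) h5 (by omega) fun i hi => ⟨0, by norm_num, by omega⟩
  · apply h2
    have h4' := per_iff.mp h4
    have h6' := per_iff.mp h6
    rw [per_iff]
    refine ⟨by omega, fun i hi => ?_⟩
    by_cases hs : i + 6 < w.length
    · have e1 := h6'.2 i hs
      have e2 := h4'.2 (i + 2) (by omega)
      rw [show i + 2 + 4 = i + 6 by omega] at e2
      rw [← e2, e1]
    · have e1 := h6'.2 (i - 4) (by omega)
      have e2 := h4'.2 (i - 4) (by omega)
      rw [show i - 4 + 6 = i + 2 by omega] at e1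
      rw [show i - 4 + 4 = i by omega] at e2
      rw [e1, e2]
  · refine const_of h h4 (by norm_num) h7 (by omega) fun i hi => ⟨1, le_rfl, by omega⟩

/-! ### Sums -/

theorem zero_mem_per' {w : List Bool} (h : NC w) : 0 ∈ per w := by
  refine zero_mem_per ?_
  rintro rfl
  exact (List.not_mem_nil (a := true)) h.1

theorem CC_eq {w : List Bool} (h : NC w) :
    CC w = 1 + ∑ p ∈ (per w).erase 0, (1 / 2 : ℝ) ^ p := by
  unfold CC
  rw [← Finset.add_sum_erase (per w) _ (zero_mem_per' h), pow_zero]

/-- a tail of the geometric series -/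
theorem tail_sum (T : Finset ℕ) (m : ℕ) (hT : ∀ p ∈ T, m ≤ p) :
    ∑ p ∈ T, (1 / 2 : ℝ) ^ p ≤ 2 * (1 / 2) ^ m := by
  obtain ⟨N, hN⟩ : ∃ N : ℕ, T ⊆ (range (m + N)) \ range m := by
    refine ⟨T.sup id + 1, fun p hp => ?_⟩
    rw [Finset.mem_sdiff, mem_range, mem_range]
    have h1 : p ≤ T.sup id := Finset.le_sup (f := id) hp
    have h2 := hT p hp
    omega
  refine (Finset.sum_le_sum_of_subset_of_nonneg hN (fun p _ _ => by positivity)).trans ?_
  have h1 : ∀ N : ℕ, ∑ p ∈ range (m + N) \ range m, (1 / 2 : ℝ) ^ p =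
      2 * (1 / 2) ^ m - 2 * (1 / 2) ^ (m + N) := by
    intro N
    have h3 : ∀ a : ℕ, ∑ p ∈ range a, (1 / 2 : ℝ) ^ p = 2 - 2 * (1 / 2) ^ a := by
      intro a
      induction a with
      | zero => norm_num
      | succ a ih => rw [Finset.sum_range_succ, ih, pow_succ]; ring
    have h2 := Finset.sum_sdiff (f := fun p => (1 / 2 : ℝ) ^ p)
      (range_subset_range.mpr (Nat.le_add_right m N))
    rw [h3, h3] at h2
    linarith
  rw [h1]
  have : (0 : ℝ) < (1 / 2) ^ (m + N) := by positivity
  linarith

/-- sums over multiples of `d` -/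
theorem mult_sum (T : Finset ℕ) (d : ℕ) (hd : 0 < d) (hT : ∀ p ∈ T, 0 < p ∧ d ∣ p) :
    ∑ p ∈ T, (1 / 2 : ℝ) ^ p ≤ (1 / 2 : ℝ) ^ d / (1 - (1 / 2) ^ d) := by
  obtain ⟨N, hN⟩ : ∃ N : ℕ, T ⊆ (range N).image (fun j => d * (j + 1)) := by
    refine ⟨T.sup id + 1, fun p hp => ?_⟩
    obtain ⟨h1, ⟨c, rfl⟩⟩ := hT p hp
    rw [mem_image]
    have h2 : d * c ≤ T.sup id := Finset.le_sup (f := id) hp
    have h3 : 0 < c := by
      rcases Nat.eq_zero_or_pos c with h | h
      · subst h
        simp at h1
      · exact h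
    refine ⟨c - 1, ?_, ?_⟩
    · rw [mem_range]
      have : c ≤ d * c := Nat.le_mul_of_pos_left c hd
      omega
    · congr 1
      omega
  refine (Finset.sum_le_sum_of_subset_of_nonneg hN (fun p _ _ => by positivity)).trans ?_
  rw [Finset.sum_image (by
    intro a _ b _ hab
    have := Nat.eq_of_mul_eq_mul_left hd hab
    omega)]
  set r : ℝ := (1 / 2) ^ d with hr
  have hr1 : r < 1 := pow_lt_one₀ (by norm_num) (by norm_num) hd.ne'
  have hr0 : 0 < r := by positivity
  have h4 : ∀ j : ℕ, (1 / 2 : ℝ) ^ (d * (j + 1)) = r * r ^ j := by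
    intro j
    rw [hr, ← pow_mul, ← pow_add]
    congr 1
    ring
  simp only [h4]
  rw [← Finset.mul_sum, geom_sum_eq hr1.ne]
  rw [le_div_iff₀ (by linarith)]
  have h5 : r * ((r ^ N - 1) / (r - 1)) * (1 - r) = r * (1 - r ^ N) := by
    have : r - 1 ≠ 0 := by linarith
    field_simp
    ring
  rw [h5]
  have : (0 : ℝ) < r ^ N := by positivity
  nlinarith

theorem t_C43 : S_C43 := by
  intro w h
  rw [CC_eq h]
  by_cases h2 : 2 ∈ per w
  · have := mult_sum ((per w).erase 0) 2 (by norm_num) (fun p hp => by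
      rw [mem_erase] at hp
      exact ⟨Nat.pos_of_ne_zero hp.1, per_two h h2 hp.2⟩)
    norm_num at this ⊢
    linarith
  · have := tail_sum ((per w).erase 0) 3 (fun p hp => by
      rw [mem_erase] at hp
      have h1 : p ≠ 1 := fun h1 => one_not_per h (h1 ▸ hp.2)
      have h3 : p ≠ 2 := fun h1 => h2 (h1 ▸ hp.2)
      have := hp.1
      omega)
    norm_num at this ⊢
    linarith

end Y413.FW
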