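import Pool.Agent.Y413.FW.Stm

/-!
# Project FW: the last occurrence of a word
-/

set_option autoImplicit false

open Finset Filter Topology TH465.Fr

namespace Y413.FW

theorem t_SPLIT : S_SPLIT := by
  intro w hw n g
  have hk : 0 < w.length := List.length_pos_iff.mpr hw
  -- the images
  have hset : (Om w n).image (fun u => w ++ u) =
      (per w).biUnion (fun p => (Pr w (n + w.length - p)).image (fun x => w.take p ++ x)) := by
    ext z
    rw [mem_image, mem_biUnion]
    constructor
    · rintro ⟨u, hu, rfl⟩
      rw [mem_Om] at hu
      obtain ⟨hu1, hu2⟩ := hu
      -- the last occurrence
      set T := (range w.length).filter (fun p => w <+: (w ++ u).drop p) with hT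
      have h0T : 0 ∈ T := by
        rw [hT, mem_filter, mem_range]
        exact ⟨hk, by simp⟩
      obtain ⟨p, hpT, hpmax⟩ := T.exists_max_image (fun p => p) ⟨0, h0T⟩
      rw [hT, mem_filter, mem_range] at hpT
      have hdrop : (w ++ u).drop p = w.drop p ++ u := by
        rw [List.drop_append_of_le_length hpT.1.le]
      have hper : p ∈ per w := by
        rw [per, mem_filter, mem_range]
        refine ⟨hpT.1, ?_⟩
        have h1 : w.drop p <+: w.drop p ++ u := List.prefix_append _ _
        have h2 := hpT.2
        rw [hdrop] at h2
        exact List.prefix_of_prefix_length_le h1 h2 (by simp)
      refine ⟨p, hper, ?_⟩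
      rw [mem_image]
      refine ⟨(w ++ u).drop p, ?_, ?_⟩
      · rw [mem_Pr]
        refine ⟨?_, hpT.2, ?_⟩
        · rw [List.length_drop, List.length_append, hu1]
          omega
        · intro hin
          rw [hdrop] at hin
          have hne : w.drop p ≠ [] := by
            intro h
            have := congrArg List.length h
            rw [List.length_drop] at this
            simp at this
            omega
          rw [List.tail_append_of_ne_nil hne] at hin
          have hlt : (w.drop p).tail.length < w.length := by
            rw [List.length_tail, List.length_drop]
            omega
          rcases occ_split w u (w.drop p).tail hlt hin with h1 | ⟨s', h1, h2, h3, h4⟩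
          · exact hu2 h1
          · -- s' is a suffix of w.drop (p+1)
            have h5 : (w.drop p).tail = w.drop (p + 1) := by
              rw [List.tail_drop]
            rw [h5] at h1
            -- position of s'
            have h6 : s' <:+ w := h1.trans (List.drop_suffix _ _)
            obtain ⟨t, ht⟩ := h6
            have hlen1 := h1.length_le
            rw [List.length_drop] at hlen1
            have hlen2 : t.length + s'.length = w.length := by
              rw [← ht, List.length_append]
            have hs0 : 0 < s'.length := List.length_pos_iff.mpr h2
            have hq : t.length ∈ T := by
              rw [hT, mem_filter, mem_range]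
              refine ⟨by omega, ?_⟩
              have h7 : (w ++ u).drop t.length = s' ++ u := by
                rw [← ht, List.append_assoc, List.drop_left']
                rfl
              rw [h7]
              exact h4
            have h8 : t.length ≤ p := hpmax _ hq
            omega
      · rw [List.drop_append_of_le_length hpT.1.le, ← List.append_assoc,
          List.take_append_drop]
    · rintro ⟨p, hp, hz⟩
      rw [mem_image] at hz
      obtain ⟨x, hx, rfl⟩ := hz
      rw [per, mem_filter, mem_range] at hp
      rw [mem_Pr] at hx
      obtain ⟨hx1, ⟨y, hy⟩, hx3⟩ := hx
      -- w is a prefix of w.take p ++ w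
      obtain ⟨r, hr⟩ := hp.2
      have h1 : w.take p ++ w = w ++ r := by
        calc w.take p ++ w = w.take p ++ (w.drop p ++ r) := by rw [hr]
          _ = w ++ r := by rw [← List.append_assoc, List.take_append_drop]
      have hrl : r.length = p := by
        have := congrArg List.length hr
        rw [List.length_append, List.length_drop] at this
        omega
      refine ⟨r ++ y, ?_, ?_⟩
      · rw [mem_Om]
        have hlen : (w ++ y).length = n + w.length - p := by rw [hy]; exact hx1
        rw [List.length_append] at hlen
        refine ⟨by rw [List.length_append]; omega, ?_⟩
        intro hin
        apply hx3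
        -- r ++ y is a suffix of x.tail
        have h2 : x = w.drop p ++ (r ++ y) := by
          rw [← hy, ← List.append_assoc, hr]
        have hne : w.drop p ≠ [] := by
          intro h
          have := congrArg List.length h
          rw [List.length_drop] at this
          simp at this
          omega
        rw [h2, List.tail_append_of_ne_nil hne]
        exact hin.trans (List.suffix_append _ _).isInfix
      · rw [← hy, ← List.append_assoc, ← List.append_assoc, h1]
  have hL : ∑ u ∈ Om w n, g (w ++ u) = ∑ z ∈ (Om w n).image (fun u => w ++ u), g z := by
    rw [Finset.sum_image]
    intro a _ b _ h
    exact List.append_cancel_left h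
  rw [hL, hset, Finset.sum_biUnion]
  · refine Finset.sum_congr rfl fun p _ => ?_
    rw [Finset.sum_image]
    intro a _ b _ h
    exact List.append_cancel_left h
  · intro p hp q hq hpq
    have key : ∀ p q : ℕ, p ∈ per w → q ∈ per w → p < q →
        Disjoint ((Pr w (n + w.length - p)).image (fun x => w.take p ++ x))
          ((Pr w (n + w.length - q)).image (fun x => w.take q ++ x)) := by
      intro p q hp hq hlt
      rw [Finset.disjoint_left]
      intro z hz1 hz2
      rw [mem_image] at hz1 hz2
      obtain ⟨x, hx, rfl⟩ := hz1
      obtain ⟨x', hx', he⟩ := hz2
      rw [mem_Pr] at hx hx'
      rw [per, mem_filter, mem_range] at hp hq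
      apply hx.2.2
      have h1 : w.take q = w.take p ++ (w.take q).drop p := by
        have h2 : w.take p = (w.take q).take p := by
          rw [List.take_take, min_eq_left hlt.le]
        rw [h2, List.take_append_drop]
      rw [h1, List.append_assoc] at he
      have h3 := List.append_cancel_left he
      have hne : (w.take q).drop p ≠ [] := by
        intro h
        have := congrArg List.length h
        rw [List.length_drop, List.length_take] at this
        simp at this
        omega
      rw [← h3, List.tail_append_of_ne_nil hne]
      exact hx'.2.1.isInfix.trans (List.suffix_append _ _).isInfix
    rcases lt_or_gt_of_ne hpq with h | h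
    · exact key p q hp hq h
    · exact (key q p hq hp h).symm

end Y413.FW
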