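import Pool.Agent.TH465.Fr.Main

/-!
# Project FW (MP_1f54e8_co): the frequency of ones under a forbidden word

Statements of the jobs.  `Om`, `Pr`, `A`, `B`, `P`, `PB` are in `Pool.Agent.TH465.Fr`.
-/

set_option autoImplicit false

open Finset Filter Topology TH465.Fr

namespace Y413.FW

/-- the word contains both letters -/
def NC (w : List Bool) : Prop := true ∈ w ∧ false ∈ w

/-- `0` and the periods of `w` that are smaller than the length -/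
def per (w : List Bool) : Finset ℕ := (range w.length).filter fun p => w.drop p <+: w

/-- the sum of `2^(-p)` over `0` and the periods -/
noncomputable def CC (w : List Bool) : ℝ := ∑ p ∈ per w, (1 / 2 : ℝ) ^ p

/-- the excess of ones over one half of the length -/
noncomputable def ex (w : List Bool) : ℝ := (w.count true : ℝ) - (w.length : ℝ) / 2

/-- The excluded words `1^(k-1) 0`, `1 0^(k-1)`, `0^(k-1) 1`, `0 1^(k-1)` for `k ≥ 2`. -/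
def R : Set (List Bool) :=
  {w | ∃ k : ℕ, 2 ≤ k ∧ (w = List.replicate (k - 1) true ++ [false] ∨
    w = true :: List.replicate (k - 1) false ∨ w = List.replicate (k - 1) false ++ [true] ∨
    w = false :: List.replicate (k - 1) true)}

/-- FW-SPLIT -/
def S_SPLIT : Prop := ∀ (w : List Bool), w ≠ [] → ∀ (n : ℕ) (g : List Bool → ℝ),
  ∑ u ∈ Om w n, g (w ++ u) =
    ∑ p ∈ per w, ∑ x ∈ Pr w (n + w.length - p), g (w.take p ++ x)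

/-- FW-C43 -/
def S_C43 : Prop := ∀ (w : List Bool), NC w → CC w ≤ 4 / 3

/-- FW-GAIN -/
def S_GAIN : Prop := ∀ (w : List Bool), NC w → 20 ≤ w.length →
  |ex w| * (1 - 1 / CC w) ≤ (w.length : ℝ) / 48 + 1 / 2

/-- FW-EX -/
def S_EX : Prop := ∀ k : ℕ, 480 ≤ k → ∃ v w : List Bool, NC v ∧ NC w ∧ v ∉ R ∧ w ∉ R ∧
  v.length = k ∧ w.length = k ∧ v.count true < w.count true ∧
  (k : ℝ) / 48 - 9 ≤ (w.count true : ℝ) - (v.count true : ℝ) ∧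
  (ex w + 2) / CC w < (ex v - 2) / CC v

/-- FW-ROOT (`S` = `per w`) -/
def S_ROOT : Prop := ∀ (k : ℕ) (S : Finset ℕ), 20 ≤ k → 0 ∈ S → (∀ p ∈ S, p < k) → 1 ∉ S →
  ∃ μ : ℝ, 2 - 8 / 2 ^ k ≤ μ ∧ μ < 2 ∧ (2 / μ - 1) * ∑ p ∈ S, μ ^ (k - p) = 1

/-- FW-NUM: the estimate of the formula for the limit -/
def S_NUM : Prop := ∀ (k : ℕ) (S : Finset ℕ) (h : ℕ → ℝ) (m : ℝ) (μ : ℝ), 20 ≤ k → 0 ∈ S →
  (∀ p ∈ S, p < k) → 1 ∉ S → (∀ p ∈ S, 0 ≤ h p ∧ h p ≤ p) → 0 ≤ m → m ≤ k →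
  2 - 8 / 2 ^ k ≤ μ → μ < 2 → (2 / μ - 1) * ∑ p ∈ S, μ ^ (k - p) = 1 →
  |2 ^ k * (∑ p ∈ S, (1 / 2 : ℝ) ^ p) *
    ((∑ p ∈ S, (1 / μ) ^ p * (h p * (2 / μ - 1) + 1 / μ) - m * (1 / μ) ^ k) /
      (∑ p ∈ S, (1 / μ) ^ p - (2 / μ - 1) * ∑ p ∈ S, (1 / μ) ^ p * ((k : ℝ) - 1 - p)) - 1 / 2) +
    (m - (k : ℝ) / 2)| ≤ 2

/-- FW-CMP -/
def S_CMP : Prop := ∀ (k : ℕ) (a b Cv Cw ρv ρw : ℝ), 20 ≤ k → 1 ≤ Cv → Cv ≤ 4 / 3 → 1 ≤ Cw →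
  Cw ≤ 4 / 3 → |a| * (1 - 1 / Cv) ≤ (k : ℝ) / 48 + 1 / 2 →
  |b| * (1 - 1 / Cw) ≤ (k : ℝ) / 48 + 1 / 2 → |2 ^ k * Cv * (ρv - 1 / 2) + a| ≤ 2 →
  |2 ^ k * Cw * (ρw - 1 / 2) + b| ≤ 2 → (k : ℝ) / 48 + 5 ≤ b - a → ρw < ρv

/-- FW-LIM -/
def S_LIM : Prop := ∀ (w : List Bool), NC w → 20 ≤ w.length → ∀ μ : ℝ,
  2 - 8 / 2 ^ w.length ≤ μ → μ < 2 →
  (2 / μ - 1) * ∑ p ∈ per w, μ ^ (w.length - p) = 1 →
  Tendsto (fun n : ℕ => B w n / (n * A w n)) atTop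
    (𝓝 ((∑ p ∈ per w, (1 / μ) ^ p * (((w.take p).count true : ℝ) * (2 / μ - 1) + 1 / μ) -
        (w.count true : ℝ) * (1 / μ) ^ w.length) /
      (∑ p ∈ per w, (1 / μ) ^ p -
        (2 / μ - 1) * ∑ p ∈ per w, (1 / μ) ^ p * ((w.length : ℝ) - 1 - p))))

end Y413.FW
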